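import Mathlib

set_option autoImplicit false
set_option linter.unusedSectionVars false

open Set Filter Topology unitInterval

namespace Pool.Agent.Helper162.Arc

/-- crookedness on `[a,b]` -/
def Crk (h : ℝ → ℝ) (a b ε : ℝ) : Prop :=
  ∀ s t, a ≤ s → s ≤ t → t ≤ b →
    ∃ c d, s ≤ c ∧ c ≤ d ∧ d ≤ t ∧ |h c - h t| ≤ ε ∧ |h d - h s| ≤ ε

lemma ivt_up {h : ℝ → ℝ} (hc : Continuous h) {s t v : ℝ} (hst : s ≤ t) (h1 : h s ≤ v)
    (h2 : v ≤ h t) : ∃ c, s ≤ c ∧ c ≤ t ∧ h c = v := by
  obtain ⟨c, hc1, hc2⟩ := intermediate_value_Icc hst hc.continuousOn ⟨h1, h2⟩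
  exact ⟨c, hc1.1, hc1.2, hc2⟩

lemma ivt_dn {h : ℝ → ℝ} (hc : Continuous h) {s t v : ℝ} (hst : s ≤ t) (h1 : h t ≤ v)
    (h2 : v ≤ h s) : ∃ c, s ≤ c ∧ c ≤ t ∧ h c = v := by
  obtain ⟨c, hc1, hc2⟩ := intermediate_value_Icc' hst hc.continuousOn ⟨h1, h2⟩
  exact ⟨c, hc1.1, hc1.2, hc2⟩

lemma glue {h : ℝ → ℝ} (hc : Continuous h) {a p q b m : ℝ} (hap : a ≤ p) (hpq : p ≤ q)
    (hqb : q ≤ b) (hm : 0 ≤ m) (hp : h p = m + 1) (hq : h q = 1)
    (r1 : ∀ x, a ≤ x → x ≤ p → 0 ≤ h x ∧ h x ≤ m + 1)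
    (r2 : ∀ x, p ≤ x → x ≤ q → 1 ≤ h x ∧ h x ≤ m + 1)
    (r3 : ∀ x, q ≤ x → x ≤ b → 1 ≤ h x ∧ h x ≤ m + 2)
    (c1 : Crk h a p 1) (c2 : Crk h p q 1) (c3 : Crk h q b 1) : Crk h a b 1 := by
  intro s t has hst htb
  rcases le_or_gt t p with htp | htp
  · exact c1 s t has hst htp
  rcases le_or_gt q s with hqs | hqs
  · exact c3 s t hqs hst htb
  rcases le_or_gt s p with hsp | hsp
  · obtain ⟨s0, s1⟩ := r1 s has hsp
    rcases le_or_gt t q with htq | htq
    · -- `s ∈ [a,p]`, `t ∈ [p,q]`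
      obtain ⟨t0, t1⟩ := r2 t htp.le htq
      rcases le_or_gt (h s) (h t) with hle | hle
      · obtain ⟨c, d, e1, e2, e3, e4, e5⟩ := c1 s p has hsp le_rfl
        rw [hp] at e4
        have e4' := abs_le.1 e4
        rcases le_or_gt (h t) (h c) with k | k
        · obtain ⟨c', f1, f2, f3⟩ := ivt_up hc e1 hle k
          exact ⟨c', d, f1, f2.trans e2, e3.trans htp.le, by rw [f3]; simp, e5⟩
        · refine ⟨c, d, e1, e2, e3.trans htp.le, ?_, e5⟩
          rw [abs_le]; constructor <;> linarith [e4'.1, e4'.2]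
      · obtain ⟨c, d, e1, e2, e3, e4, e5⟩ := c2 p t le_rfl htp.le htq
        rw [hp] at e5
        have e5' := abs_le.1 e5
        rcases le_or_gt (h s) (h d) with k | k
        · obtain ⟨d', f1, f2, f3⟩ := ivt_dn hc e3 hle.le k
          exact ⟨c, d', hsp.trans e1, e2.trans f1, f2, e4, by rw [f3]; simp⟩
        · refine ⟨c, d, hsp.trans e1, e2, e3, e4, ?_⟩
          rw [abs_le]; constructor <;> linarith [e5'.1, e5'.2]
    · -- `s ∈ [a,p]`, `t ∈ [q,b]`
      obtain ⟨t0, t1⟩ := r3 t htq.le htb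
      rcases le_or_gt (h s) (min (h t) (m + 1)) with hle | hle
      · obtain ⟨c, e1, e2, e3⟩ := ivt_up hc hsp hle (by rw [hp]; exact min_le_right _ _)
        obtain ⟨d, f1, f2, f3⟩ := ivt_dn (v := max (h s) 1) hc hpq (by rw [hq]; exact le_max_right _ _)
          (by rw [hp]; exact max_le s1 (by linarith))
        refine ⟨c, d, e1, e2.trans f1, f2.trans htq.le, ?_, ?_⟩
        · rw [e3, abs_le]
          rcases le_total (h t) (m + 1) with k | k
          · rw [min_eq_left k]; constructor <;> linarith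
          · rw [min_eq_right k]; constructor <;> linarith
        · rw [f3, abs_le]
          rcases le_total (h s) 1 with k | k
          · rw [max_eq_right k]; constructor <;> linarith
          · rw [max_eq_left k]; constructor <;> linarith
      · have hts : h t < h s := by
          rcases min_lt_iff.1 hle with k | k
          · exact k
          · linarith
        obtain ⟨c, d, e1, e2, e3, e4, e5⟩ := c2 p q le_rfl hpq le_rfl
        rw [hq] at e4
        rw [hp] at e5
        have e4' := abs_le.1 e4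
        have e5' := abs_le.1 e5
        -- the return point
        have hd : ∀ c', c' ≤ d → h c' ≤ h s → ∃ d', c' ≤ d' ∧ d' ≤ d ∧ |h d' - h s| ≤ 1 := by
          intro c' hc' hcs
          rcases le_or_gt (h s) (h d) with k | k
          · obtain ⟨d', f1, f2, f3⟩ := ivt_up hc hc' hcs k
            exact ⟨d', f1, f2, by rw [f3]; simp⟩
          · refine ⟨d, hc', le_rfl, ?_⟩
            rw [abs_le]; constructor <;> linarith [e5'.1, e5'.2]
        rcases le_or_gt (h c) (h t) with k | k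
        · obtain ⟨c', f1, f2, f3⟩ := ivt_dn (v := h t) hc e1 k (by rw [hp]; linarith)
          obtain ⟨d', g1, g2, g3⟩ := hd c' (f2.trans e2) (by rw [f3]; exact hts.le)
          exact ⟨c', d', hsp.trans f1, g1, (g2.trans e3).trans htq.le, by rw [f3]; simp, g3⟩
        · have hct : |h c - h t| ≤ 1 := by
            rw [abs_le]; constructor <;> linarith [e4'.1, e4'.2]
          rcases le_or_gt (h c) (h s) with k' | k'
          · obtain ⟨d', g1, g2, g3⟩ := hd c e2 k'
            exact ⟨c, d', hsp.trans e1, g1, (g2.trans e3).trans htq.le, hct, g3⟩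
          · refine ⟨c, c, hsp.trans e1, le_rfl, (e2.trans e3).trans htq.le, hct, ?_⟩
            rw [abs_le]; constructor <;> linarith [e4'.1, e4'.2]
  · obtain ⟨s0, s1⟩ := r2 s hsp.le hqs.le
    rcases le_or_gt t q with htq | htq
    · exact c2 s t hsp.le hst htq
    · -- `s ∈ [p,q]`, `t ∈ [q,b]`
      obtain ⟨t0, t1⟩ := r3 t htq.le htb
      rcases le_or_gt (h t) (h s) with hle | hle
      · obtain ⟨c, d, e1, e2, e3, e4, e5⟩ := c2 s q hsp.le hqs.le le_rfl
        rw [hq] at e4
        have e4' := abs_le.1 e4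
        rcases le_or_gt (h c) (h t) with k | k
        · obtain ⟨c', f1, f2, f3⟩ := ivt_dn hc e1 k hle
          exact ⟨c', d, f1, f2.trans e2, e3.trans htq.le, by rw [f3]; simp, e5⟩
        · refine ⟨c, d, e1, e2, e3.trans htq.le, ?_, e5⟩
          rw [abs_le]; constructor <;> linarith [e4'.1, e4'.2]
      · obtain ⟨c, d, e1, e2, e3, e4, e5⟩ := c3 q t le_rfl htq.le htb
        rw [hq] at e5
        have e5' := abs_le.1 e5
        rcases le_or_gt (h d) (h s) with k | k
        · obtain ⟨d', f1, f2, f3⟩ := ivt_up hc e3 k hle.le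
          exact ⟨c, d', hqs.le.trans e1, e2.trans f1, f2, e4, by rw [f3]; simp⟩
        · refine ⟨c, d, hqs.le.trans e1, e2, e3, e4, ?_⟩
          rw [abs_le]; constructor <;> linarith [e5'.1, e5'.2]

lemma Crk.congr {h h' : ℝ → ℝ} {a b ε : ℝ} (hh : Crk h a b ε)
    (he : ∀ x, a ≤ x → x ≤ b → h' x = h x) : Crk h' a b ε := by
  intro s t has hst htb
  obtain ⟨c, d, e1, e2, e3, e4, e5⟩ := hh s t has hst htb
  refine ⟨c, d, e1, e2, e3, ?_, ?_⟩
  · rw [he c (has.trans e1) ((e2.trans e3).trans htb), he t (has.trans hst) htb]; exact e4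
  · rw [he d ((has.trans e1).trans e2) (e3.trans htb), he s has (hst.trans htb)]; exact e5

lemma Crk.shift {h : ℝ → ℝ} {a b ε : ℝ} (hh : Crk h a b ε) (k : ℝ) :
    Crk (fun x => 1 + h (x - k)) (a + k) (b + k) ε := by
  intro s t has hst htb
  obtain ⟨c, d, e1, e2, e3, e4, e5⟩ := hh (s - k) (t - k) (by linarith) (by linarith) (by linarith)
  refine ⟨c + k, d + k, by linarith, by linarith, by linarith, ?_, ?_⟩
  · simpa using e4
  · simpa using e5

lemma Crk.rev {h : ℝ → ℝ} {a b ε : ℝ} (hh : Crk h a b ε) (k : ℝ) :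
    Crk (fun x => 1 + h (k - x)) (k - b) (k - a) ε := by
  intro s t has hst htb
  obtain ⟨c, d, e1, e2, e3, e4, e5⟩ := hh (k - t) (k - s) (by linarith) (by linarith) (by linarith)
  refine ⟨k - d, k - c, by linarith, by linarith, by linarith, ?_, ?_⟩
  · simpa using e5
  · simpa using e4

/-- lengths -/
noncomputable def L : ℕ → ℝ
  | 0 => 0
  | 1 => 1
  | n + 2 => L (n + 1) + L n + L (n + 1)

/-- crooked paths from `0` to `n` -/
noncomputable def F : ℕ → ℝ → ℝ
  | 0, _ => 0
  | 1, x => x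
  | n + 2, x => if x ≤ L (n + 1) then F (n + 1) x else
      if x ≤ L (n + 1) + L n then 1 + F n (L (n + 1) + L n - x) else
        1 + F (n + 1) (x - (L (n + 1) + L n))

/-- the properties of `F n` -/
structure Good (n : ℕ) : Prop where
  cont : Continuous (F n)
  len : 0 ≤ L n
  zero : F n 0 = 0
  top : F n (L n) = n
  rng : ∀ x, 0 ≤ x → x ≤ L n → 0 ≤ F n x ∧ F n x ≤ n
  crk : Crk (F n) 0 (L n) 1

lemma good_zero : Good 0 where
  cont := by
    have : F 0 = fun _ => 0 := by funext x; simp [F]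
    rw [this]; exact continuous_const
  len := by simp [L]
  zero := by simp [F]
  top := by simp [F]
  rng := by intro x _ _; simp [F]
  crk := by
    intro s t _ hst _
    exact ⟨s, s, le_rfl, le_rfl, hst, by simp [F], by simp [F]⟩

lemma good_one : Good 1 where
  cont := by
    have : F 1 = fun x => x := by funext x; simp [F]
    rw [this]; exact continuous_id
  len := by simp [L]
  zero := by simp [F]
  top := by simp [F, L]
  rng := by intro x h1 h2; simp only [F, L] at *; exact ⟨h1, by exact_mod_cast h2⟩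
  crk := by
    intro s t h1 hst h2
    refine ⟨s, s, le_rfl, le_rfl, hst, ?_, ?_⟩
    · simp only [F, L] at *
      rw [abs_le]; constructor <;> linarith
    · simp [F]

lemma good_step {n : ℕ} (h0 : Good n) (h1 : Good (n + 1)) (hl : 0 < L (n + 1)) :
    Good (n + 2) := by
  have hl0 := h0.len
  have hL : L (n + 2) = L (n + 1) + L n + L (n + 1) := by rw [L]
  have hF : ∀ x, F (n + 2) x = if x ≤ L (n + 1) then F (n + 1) x else
      if x ≤ L (n + 1) + L n then 1 + F n (L (n + 1) + L n - x) else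
        1 + F (n + 1) (x - (L (n + 1) + L n)) := fun x => by rw [F]
  -- values on the three pieces
  have v1 : ∀ x, x ≤ L (n + 1) → F (n + 2) x = F (n + 1) x := fun x hx => by
    rw [hF, if_pos hx]
  have v2 : ∀ x, L (n + 1) ≤ x → x ≤ L (n + 1) + L n →
      F (n + 2) x = 1 + F n (L (n + 1) + L n - x) := fun x hx hx' => by
    rcases hx.eq_or_lt with h | h
    · rw [v1 x h.symm.le, ← h, h1.top]
      rw [show L (n + 1) + L n - L (n + 1) = L n by ring, h0.top]
      push_cast; ring
    · rw [hF, if_neg (not_le.2 h), if_pos hx']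
  have v3 : ∀ x, L (n + 1) + L n ≤ x →
      F (n + 2) x = 1 + F (n + 1) (x - (L (n + 1) + L n)) := fun x hx => by
    rcases hx.eq_or_lt with h | h
    · rw [v2 x (by linarith) h.symm.le, ← h]
      simp [h0.zero, h1.zero]
    · rw [hF, if_neg (not_le.2 (by linarith)), if_neg (not_le.2 h)]
  have hcont : Continuous (F (n + 2)) := by
    have : F (n + 2) = fun x => if x ≤ L (n + 1) then F (n + 1) x else
      if x ≤ L (n + 1) + L n then 1 + F n (L (n + 1) + L n - x) else
        1 + F (n + 1) (x - (L (n + 1) + L n)) := funext hF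
    rw [this]
    apply Continuous.if_le h1.cont _ continuous_id continuous_const
    · intro x hx
      have hx' : x = L (n + 1) := hx
      subst hx'
      rw [if_pos (by linarith), h1.top,
        show L (n + 1) + L n - L (n + 1) = L n by ring, h0.top]
      push_cast; ring
    · apply Continuous.if_le _ _ continuous_id continuous_const
      · intro x hx
        have hx' : x = L (n + 1) + L n := hx
        subst hx'
        simp [h0.zero, h1.zero]
      · exact continuous_const.add (h0.cont.comp (continuous_const.sub continuous_id))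
      · exact continuous_const.add (h1.cont.comp (continuous_id.sub continuous_const))
  have hpv : F (n + 2) (L (n + 1)) = n + 1 := by
    rw [v1 _ le_rfl, h1.top]; push_cast; ring
  have hqv : F (n + 2) (L (n + 1) + L n) = 1 := by
    rw [v2 _ (by linarith) le_rfl]; simp [h0.zero]
  have r1 : ∀ x, 0 ≤ x → x ≤ L (n + 1) → 0 ≤ F (n + 2) x ∧ F (n + 2) x ≤ n + 1 := by
    intro x hx hx'
    rw [v1 x hx']
    have := h1.rng x hx hx'
    push_cast at this
    exact this
  have r2 : ∀ x, L (n + 1) ≤ x → x ≤ L (n + 1) + L n →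
      1 ≤ F (n + 2) x ∧ F (n + 2) x ≤ n + 1 := by
    intro x hx hx'
    rw [v2 x hx hx']
    have := h0.rng (L (n + 1) + L n - x) (by linarith) (by linarith)
    constructor <;> linarith [this.1, this.2]
  have r3 : ∀ x, L (n + 1) + L n ≤ x → x ≤ L (n + 2) →
      1 ≤ F (n + 2) x ∧ F (n + 2) x ≤ n + 2 := by
    intro x hx hx'
    rw [v3 x hx]
    rw [hL] at hx'
    have := h1.rng (x - (L (n + 1) + L n)) (by linarith) (by linarith)
    push_cast at this
    constructor <;> linarith [this.1, this.2]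
  refine ⟨hcont, by rw [hL]; linarith, ?_, ?_, ?_, ?_⟩
  · rw [v1 0 hl.le, h1.zero]
  · rw [v3 _ (by rw [hL]; linarith), hL,
      show L (n + 1) + L n + L (n + 1) - (L (n + 1) + L n) = L (n + 1) by ring, h1.top]
    push_cast; ring
  · intro x hx hx'
    push_cast
    rcases le_total x (L (n + 1)) with k | k
    · have := r1 x hx k
      constructor <;> linarith [this.1, this.2]
    rcases le_total x (L (n + 1) + L n) with k' | k'
    · have := r2 x k k'
      constructor <;> linarith [this.1, this.2]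
    · have := r3 x k' hx'
      constructor <;> linarith [this.1, this.2]
  · refine glue (p := L (n + 1)) (q := L (n + 1) + L n) (m := n) hcont hl.le (by linarith)
      (by rw [hL]; linarith) (Nat.cast_nonneg n) hpv hqv r1 r2 r3 ?_ ?_ ?_
    · exact h1.crk.congr fun x _ hx => v1 x hx
    · have := h0.crk.rev (L (n + 1) + L n)
      rw [show L (n + 1) + L n - L n = L (n + 1) by ring, sub_zero] at this
      exact this.congr fun x hx hx' => v2 x hx hx'
    · have := h1.crk.shift (L (n + 1) + L n)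
      rw [zero_add, show L (n + 1) + (L (n + 1) + L n) = L (n + 2) by rw [hL]; ring] at this
      exact this.congr fun x hx _ => v3 x hx

lemma good_all (n : ℕ) : Good n ∧ Good (n + 1) ∧ 0 < L (n + 1) := by
  induction n with
  | zero => exact ⟨good_zero, good_one, by simp [L]⟩
  | succ n ih =>
    refine ⟨ih.2.1, good_step ih.1 ih.2.1 ih.2.2, ?_⟩
    have hL : L (n + 2) = L (n + 1) + L n + L (n + 1) := by rw [L]
    rw [show n + 1 + 1 = n + 2 from rfl, hL]
    linarith [ih.1.len, ih.2.2]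

/-- crookedness of self-maps of the unit interval -/
def CrkI (h : I → I) (ε : ℝ) : Prop :=
  ∀ s t : I, s ≤ t →
    ∃ c d : I, s ≤ c ∧ c ≤ d ∧ d ≤ t ∧ |(h c : ℝ) - h t| ≤ ε ∧ |(h d : ℝ) - h s| ≤ ε

/-- Existence of crooked surjections. -/
theorem exists_crooked {δ : ℝ} (hδ : 0 < δ) :
    ∃ sg : C(I, I), Function.Surjective sg ∧ CrkI sg δ := by
  obtain ⟨n, hn⟩ := exists_nat_one_div_lt hδ
  have hg : Good (n + 1) := (good_all n).2.1
  have hl : 0 < L (n + 1) := (good_all n).2.2
  have hN : (0 : ℝ) < (n : ℝ) + 1 := by positivity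
  have hrng : ∀ x : I, 0 ≤ F (n + 1) (L (n + 1) * x) ∧ F (n + 1) (L (n + 1) * x) ≤ (n : ℝ) + 1 := by
    intro x
    have h1 : 0 ≤ L (n + 1) * (x : ℝ) := mul_nonneg hl.le x.2.1
    have h2 : L (n + 1) * (x : ℝ) ≤ L (n + 1) := by
      calc L (n + 1) * (x : ℝ) ≤ L (n + 1) * 1 := mul_le_mul_of_nonneg_left x.2.2 hl.le
        _ = _ := mul_one _
    have := hg.rng _ h1 h2
    push_cast at this
    exact this
  let sg : C(I, I) := ⟨fun x => ⟨F (n + 1) (L (n + 1) * x) / ((n : ℝ) + 1),
    div_nonneg (hrng x).1 hN.le, (div_le_one hN).2 (hrng x).2⟩, by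
      apply Continuous.subtype_mk
      exact (hg.cont.comp (continuous_const.mul continuous_subtype_val)).div_const _⟩
  have hsg : ∀ x, (sg x : ℝ) = F (n + 1) (L (n + 1) * x) / ((n : ℝ) + 1) := fun x => rfl
  refine ⟨sg, ?_, ?_⟩
  · intro y
    have hy1 : F (n + 1) 0 ≤ ((n : ℝ) + 1) * y := by
      rw [hg.zero]; exact mul_nonneg hN.le y.2.1
    have hy2 : ((n : ℝ) + 1) * y ≤ F (n + 1) (L (n + 1)) := by
      rw [hg.top]; push_cast
      calc ((n : ℝ) + 1) * y ≤ ((n : ℝ) + 1) * 1 := mul_le_mul_of_nonneg_left y.2.2 hN.le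
        _ = _ := mul_one _
    obtain ⟨c, h1, h2, h3⟩ := ivt_up hg.cont hl.le hy1 hy2
    refine ⟨⟨c / L (n + 1), div_nonneg h1 hl.le, (div_le_one hl).2 h2⟩, ?_⟩
    apply Subtype.ext
    rw [hsg]
    show F (n + 1) (L (n + 1) * (c / L (n + 1))) / ((n : ℝ) + 1) = y
    rw [mul_div_cancel₀ _ hl.ne', h3]
    field_simp
  · intro s t hst
    have hst' : (s : ℝ) ≤ t := hst
    obtain ⟨c, d, e1, e2, e3, e4, e5⟩ := hg.crk (L (n + 1) * s) (L (n + 1) * t)
      (mul_nonneg hl.le s.2.1) (mul_le_mul_of_nonneg_left hst' hl.le)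
      (by
        calc L (n + 1) * (t : ℝ) ≤ L (n + 1) * 1 := mul_le_mul_of_nonneg_left t.2.2 hl.le
          _ = _ := mul_one _)
    have hc1 : (s : ℝ) ≤ c / L (n + 1) := by rw [le_div_iff₀ hl]; linarith
    have hd1 : c / L (n + 1) ≤ d / L (n + 1) := by gcongr
    have hd2 : d / L (n + 1) ≤ t := by rw [div_le_iff₀ hl]; linarith
    refine ⟨⟨c / L (n + 1), s.2.1.trans hc1, (hd1.trans hd2).trans t.2.2⟩,
      ⟨d / L (n + 1), (s.2.1.trans hc1).trans hd1, hd2.trans t.2.2⟩, hc1, hd1, hd2, ?_, ?_⟩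
    · rw [hsg, hsg]
      show |F (n + 1) (L (n + 1) * (c / L (n + 1))) / ((n : ℝ) + 1) - _| ≤ δ
      rw [mul_div_cancel₀ _ hl.ne', ← sub_div, abs_div, abs_of_pos hN]
      exact ((div_le_div_iff_of_pos_right hN).2 e4).trans hn.le
    · rw [hsg, hsg]
      show |F (n + 1) (L (n + 1) * (d / L (n + 1))) / ((n : ℝ) + 1) - _| ≤ δ
      rw [mul_div_cancel₀ _ hl.ne', ← sub_div, abs_div, abs_of_pos hN]
      exact ((div_le_div_iff_of_pos_right hN).2 e5).trans hn.le

end Pool.Agent.Helper162.Arc
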