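import Pool.Agent.Helper162.Arc.Quot
import Pool.Agent.Helper162.Arc.Crook

set_option autoImplicit false
set_option linter.unusedSectionVars false

open Set Filter Topology unitInterval

namespace Pool.Agent.Helper162.Arc

/-- The intersection of a directed family of compact connected sets is connected. -/
theorem iInter_antitone_isPreconnected {X : Type} [TopologicalSpace X] [CompactSpace X] [T2Space X]
    (K : ℕ → Set X) (hanti : Antitone K) (hc : ∀ i, IsClosed (K i))
    (hconn : ∀ i, IsPreconnected (K i)) : IsPreconnected (⋂ i, K i) := by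
  have hcl : IsClosed (⋂ i, K i) := isClosed_iInter hc
  rw [isPreconnected_iff_subset_of_fully_disjoint_closed hcl]
  intro a b ha hb hab habd
  rcases normal_separation ha hb habd with ⟨u, v, hu, hv, hau, hbv, huv⟩
  obtain ⟨i, hi⟩ : ∃ i, K i ⊆ u ∪ v := by
    by_contra hcon
    push Not at hcon
    have hne : ∀ i, (K i ∩ (u ∪ v)ᶜ).Nonempty := by
      intro i
      obtain ⟨x, hx, hx'⟩ := Set.not_subset.1 (hcon i)
      exact ⟨x, hx, hx'⟩
    have := IsCompact.nonempty_iInter_of_directed_nonempty_isCompact_isClosed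
      (fun i => K i ∩ (u ∪ v)ᶜ)
      (fun i j => ⟨max i j, Set.inter_subset_inter_left _ (hanti (le_max_left _ _)),
        Set.inter_subset_inter_left _ (hanti (le_max_right _ _))⟩)
      hne
      (fun i => ((hc i).inter (hu.union hv).isClosed_compl).isCompact)
      (fun i => (hc i).inter (hu.union hv).isClosed_compl)
    obtain ⟨x, hx⟩ := this
    have hx1 : x ∈ ⋂ i, K i := Set.mem_iInter.2 fun i => (Set.mem_iInter.1 hx i).1
    have hx2 : x ∉ u ∪ v := (Set.mem_iInter.1 hx 0).2
    exact hx2 ((hab.trans (Set.union_subset_union hau hbv)) hx1)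
  rcases (hconn i).subset_or_subset hu hv huv hi with h | h
  · left
    intro x hx
    rcases hab hx with h1 | h1
    · exact h1
    · exact absurd (hbv h1) (fun h2 => Set.disjoint_left.1 huv (h (Set.mem_iInter.1 hx i)) h2)
  · right
    intro x hx
    rcases hab hx with h1 | h1
    · exact absurd (hau h1) (fun h2 => Set.disjoint_left.1 huv h2 (h (Set.mem_iInter.1 hx i)))
    · exact h1

section lim
variable (g : ℕ → C(I, I))

/-- inverse limit of intervals -/
def Lim : Set (ℕ → I) := {x | ∀ n, g n (x (n + 1)) = x n}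

/-- partial constraints -/
def KK (N : ℕ) : Set (ℕ → I) := {x | ∀ k < N, g k (x (k + 1)) = x k}

lemma isClosed_KK (N : ℕ) : IsClosed (KK g N) := by
  have : KK g N = ⋂ k, ⋂ (_ : k < N), {x : ℕ → I | g k (x (k + 1)) = x k} := by
    ext x; simp [KK]
  rw [this]
  refine isClosed_iInter fun k => isClosed_iInter fun _ => ?_
  exact isClosed_eq (by fun_prop) (by fun_prop)

lemma Lim_eq : Lim g = ⋂ N, KK g N := by
  ext x
  simp only [Lim, KK, mem_iInter]
  exact ⟨fun h N k _ => h k, fun h n => h (n + 1) n (Nat.lt_succ_self n)⟩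

lemma isClosed_Lim : IsClosed (Lim g) := by
  rw [Lim_eq]; exact isClosed_iInter fun N => isClosed_KK g N

/-- correcting one coordinate -/
def T1 (N : ℕ) (y : ℕ → I) : ℕ → I := Function.update y N (g N (y (N + 1)))

/-- correcting the first coordinates -/
def PP : ℕ → (ℕ → I) → (ℕ → I)
  | 0 => id
  | N + 1 => PP N ∘ T1 g N

lemma continuous_PP (N : ℕ) : Continuous (PP g N) := by
  induction N with
  | zero => exact continuous_id
  | succ N ih =>
    apply ih.comp
    unfold T1
    exact continuous_id.update N (by fun_prop)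

lemma PP_ge (N : ℕ) : ∀ (y : ℕ → I) (j : ℕ), N ≤ j → PP g N y j = y j := by
  induction N with
  | zero => intro y j _; rfl
  | succ N ih =>
    intro y j hj
    show PP g N (T1 g N y) j = y j
    rw [ih _ j (by omega)]
    unfold T1
    rw [Function.update_of_ne (by omega)]

lemma PP_mem (N : ℕ) : ∀ (y : ℕ → I), PP g N y ∈ KK g N := by
  induction N with
  | zero => intro y k hk; omega
  | succ N ih =>
    intro y k hk
    rcases Nat.lt_succ_iff_lt_or_eq.1 hk with h | h
    · exact ih (T1 g N y) k h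
    · subst h
      rw [PP_ge g (k + 1) y (k + 1) le_rfl]
      show _ = PP g k (T1 g k y) k
      rw [PP_ge g k _ k le_rfl]
      unfold T1
      rw [Function.update_self]

lemma PP_fix (N : ℕ) : ∀ (y : ℕ → I), y ∈ KK g N → PP g N y = y := by
  induction N with
  | zero => intro y _; rfl
  | succ N ih =>
    intro y hy
    show PP g N (T1 g N y) = y
    have h1 : T1 g N y = y := by
      unfold T1
      rw [hy N (Nat.lt_succ_self N), Function.update_eq_self]
    rw [h1]
    exact ih y fun k hk => hy k (by omega)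

lemma isPreconnected_Lim : IsPreconnected (Lim g) := by
  rw [Lim_eq]
  apply iInter_antitone_isPreconnected
  · intro m n hmn x hx k hk
    exact hx k (by omega)
  · exact isClosed_KK g
  · intro N
    have : KK g N = range (PP g N) := by
      ext x
      constructor
      · intro hx
        exact ⟨x, PP_fix g N x hx⟩
      · rintro ⟨y, rfl⟩
        exact PP_mem g N y
    rw [this]
    exact isPreconnected_range (continuous_PP g N)

lemma exists_mem_Lim (hs : ∀ n, Function.Surjective (g n)) (t : I) : ∃ x ∈ Lim g, x 0 = t := by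
  let x : ℕ → I := fun n => Nat.rec t (fun k y => Function.surjInv (hs k) y) n
  refine ⟨x, fun n => ?_, rfl⟩
  exact Function.surjInv_eq (hs n) (x n)

variable {g}

lemma continuous_coord (n : ℕ) : Continuous fun x : Lim g => x.1 n :=
  (continuous_apply n).comp continuous_subtype_val

lemma continuous_coordR (n : ℕ) : Continuous fun x : Lim g => (x.1 n : ℝ) :=
  continuous_subtype_val.comp (continuous_coord n)

lemma coord_le {x y : ℕ → I} (hx : x ∈ Lim g) (hy : y ∈ Lim g) {n k : ℕ} (hkn : k ≤ n)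
    (h : x n = y n) : x k = y k := by
  induction n with
  | zero => rw [Nat.le_zero.1 hkn]; exact h
  | succ n ih =>
    rcases Nat.le_succ_iff.1 hkn with h1 | h1
    · apply ih h1
      rw [← hx n, ← hy n, h]
    · rw [h1]; exact h

lemma coord_sep {A : Set (Lim g)} (hA : IsClosed A) {a : Lim g} (ha : a ∉ A) :
    ∃ j, ∀ x ∈ A, x.1 j ≠ a.1 j := by
  have : CompactSpace (Lim g) := isCompact_iff_compactSpace.mp (isClosed_Lim g).isCompact
  by_contra hcon
  push Not at hcon
  have hcl : ∀ j, IsClosed (A ∩ {x : Lim g | x.1 j = a.1 j}) := fun j =>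
    hA.inter (isClosed_eq (continuous_coord j) continuous_const)
  have hanti : ∀ i j, i ≤ j → A ∩ {x : Lim g | x.1 j = a.1 j} ⊆ A ∩ {x : Lim g | x.1 i = a.1 i} := by
    intro i j hij x hx
    exact ⟨hx.1, coord_le x.2 a.2 hij hx.2⟩
  obtain ⟨x, hx⟩ := IsCompact.nonempty_iInter_of_directed_nonempty_isCompact_isClosed
    (fun j => A ∩ {x : Lim g | x.1 j = a.1 j})
    (fun i j => ⟨max i j, hanti _ _ (le_max_left _ _), hanti _ _ (le_max_right _ _)⟩)
    (fun j => by
      obtain ⟨x, hx, hx2⟩ := hcon j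
      exact ⟨x, hx, hx2⟩)
    (fun j => (hcl j).isCompact) hcl
  have h1 : x = a := by
    apply Subtype.ext
    funext j
    exact (mem_iInter.1 hx j).2
  exact ha (h1 ▸ (mem_iInter.1 hx 0).1)

end lim

/-- crooked composition -/
lemma exists_next (n : ℕ) (G : ℕ → C(I, I)) :
    ∃ s : C(I, I), Function.Surjective s ∧
      ∀ j ≤ n, CrkI ((G j).comp s) (1 / ((n : ℝ) + 1)) := by
  have hpos : (0 : ℝ) < 1 / ((n : ℝ) + 1) := by positivity
  let H : I → (Fin (n + 1) → I) := fun a j => G j a
  have hH : Continuous H := by fun_prop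
  have hHu := CompactSpace.uniformContinuous_of_continuous hH
  rw [Metric.uniformContinuous_iff] at hHu
  obtain ⟨δ, hδ, hδ2⟩ := hHu _ hpos
  obtain ⟨s, hs1, hs2⟩ := exists_crooked (δ := δ / 2) (by linarith)
  refine ⟨s, hs1, ?_⟩
  intro j hj a b hab
  have key : ∀ p q : I, |(s p : ℝ) - s q| ≤ δ / 2 →
      |(((G j).comp s p : I) : ℝ) - ((G j).comp s q : I)| ≤ 1 / ((n : ℝ) + 1) := by
    intro p q hpq
    have h1 : dist (s p) (s q) < δ := by
      rw [Subtype.dist_eq, Real.dist_eq]; linarith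
    have h2 := (dist_pi_lt_iff hpos).1 (hδ2 h1) ⟨j, by omega⟩
    rw [Subtype.dist_eq, Real.dist_eq] at h2
    exact h2.le
  obtain ⟨c, d, e1, e2, e3, e4, e5⟩ := hs2 a b hab
  exact ⟨c, d, e1, e2, e3, key c b e4, key d a e5⟩

/-- the next bonding map -/
noncomputable def nxt (n : ℕ) (G : ℕ → C(I, I)) : C(I, I) := Classical.choose (exists_next n G)

/-- composite bonding maps -/
noncomputable def St : ℕ → ℕ → C(I, I)
  | 0 => fun _ => ContinuousMap.id I
  | n + 1 => fun j => if j ≤ n then (St n j).comp (nxt n (St n)) else ContinuousMap.id I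

/-- bonding maps -/
noncomputable def bond (n : ℕ) : C(I, I) := nxt n (St n)

lemma bond_surj (n : ℕ) : Function.Surjective (bond n) :=
  (Classical.choose_spec (exists_next n (St n))).1

lemma St_crk {n j : ℕ} (hj : j ≤ n) : CrkI (St (n + 1) j) (1 / ((n : ℝ) + 1)) := by
  have h := (Classical.choose_spec (exists_next n (St n))).2 j hj
  have h2 : St (n + 1) j = (St n j).comp (nxt n (St n)) := by
    show (if j ≤ n then (St n j).comp (nxt n (St n)) else ContinuousMap.id I) = _
    rw [if_pos hj]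
  rw [h2]
  exact h

lemma St_coord {x : ℕ → I} (hx : x ∈ Lim bond) (n : ℕ) : ∀ j, j ≤ n → St n j (x n) = x j := by
  induction n with
  | zero =>
    intro j hj
    rw [Nat.le_zero.1 hj]; rfl
  | succ n ih =>
    intro j hj
    rcases Nat.le_succ_iff.1 hj with h1 | h1
    · have h2 : St (n + 1) j = (St n j).comp (nxt n (St n)) := by
        show (if j ≤ n then (St n j).comp (nxt n (St n)) else ContinuousMap.id I) = _
        rw [if_pos h1]
      rw [h2, ContinuousMap.comp_apply]
      have h3 : nxt n (St n) (x (n + 1)) = x n := hx n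
      rw [h3]
      exact ih j h1
    · subst h1
      have h2 : St (n + 1) (n + 1) = ContinuousMap.id I := by
        show (if n + 1 ≤ n then (St n (n + 1)).comp (nxt n (St n)) else ContinuousMap.id I) = _
        rw [if_neg (by omega)]
      rw [h2]; rfl

/-- The pseudo-arc. -/
abbrev PA : Type := Lim bond

instance : CompactSpace PA := isCompact_iff_compactSpace.mp (isClosed_Lim bond).isCompact

lemma pa_core {C A B : Set PA} (hC : IsPreconnected C) (hB : IsPreconnected B) (hAB : A ∪ B = C)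
    {a b : PA} (ha : a ∈ C) (hb : b ∈ C) (hbA : b ∉ A) {j n : ℕ} (hjn : j ≤ n)
    (h1 : ∀ x ∈ A, 1 / ((n : ℝ) + 1) < |(x.1 j : ℝ) - b.1 j|)
    (h2 : ∀ x ∈ B, 1 / ((n : ℝ) + 1) < |(x.1 j : ℝ) - a.1 j|)
    (hab : a.1 (n + 1) ≤ b.1 (n + 1)) : False := by
  have hcoord : Continuous fun x : PA => x.1 (n + 1) := continuous_coord (n + 1)
  have hCo : ((fun x : PA => x.1 (n + 1)) '' C).OrdConnected :=
    (hC.image _ hcoord.continuousOn).ordConnected
  have hBo : ((fun x : PA => x.1 (n + 1)) '' B).OrdConnected :=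
    (hB.image _ hcoord.continuousOn).ordConnected
  have hbB : b ∈ B := by
    have : b ∈ A ∪ B := by rw [hAB]; exact hb
    exact this.resolve_left hbA
  obtain ⟨c, d, e1, e2, e3, e4, e5⟩ := St_crk hjn _ _ hab
  have hS : ∀ x : PA, St (n + 1) j (x.1 (n + 1)) = x.1 j := fun x =>
    St_coord x.2 (n + 1) j (by omega)
  rw [hS] at e4 e5
  obtain ⟨x, hx, hxc⟩ := hCo.out ⟨a, ha, rfl⟩ ⟨b, hb, rfl⟩ ⟨e1, e2.trans e3⟩
  have hxc' : x.1 (n + 1) = c := hxc
  have hx' : x ∈ A ∪ B := by rw [hAB]; exact hx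
  have hxB : x ∈ B := by
    rcases hx' with h | h
    · exfalso
      have := h1 x h
      rw [← hxc', hS] at e4
      linarith
    · exact h
  obtain ⟨y, hy, hyd⟩ := hBo.out ⟨x, hxB, rfl⟩ ⟨b, hbB, rfl⟩
    (show d ∈ Icc (x.1 (n + 1)) (b.1 (n + 1)) from ⟨hxc'.le.trans e2, e3⟩)
  have hyd' : y.1 (n + 1) = d := hyd
  have := h2 y hy
  rw [← hyd', hS] at e5
  linarith

lemma coord_gap {A : Set PA} (hA : IsClosed A) {a : PA} (ha : a ∉ A) :
    ∃ j, ∀ k, j ≤ k → ∃ ε > 0, ∀ x ∈ A, ε < |(x.1 k : ℝ) - a.1 k| := by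
  obtain ⟨j, hj⟩ := coord_sep hA ha
  refine ⟨j, fun k hk => ?_⟩
  have hj' : ∀ x ∈ A, x.1 k ≠ a.1 k := fun x hx h => hj x hx (coord_le x.2 a.2 hk h)
  rcases A.eq_empty_or_nonempty with h | h
  · exact ⟨1, one_pos, fun x hx => absurd hx (by rw [h]; simp)⟩
  · have hc : Continuous fun x : PA => |(x.1 k : ℝ) - a.1 k| :=
      ((continuous_coordR k).sub continuous_const).abs
    obtain ⟨m, hm, hmin⟩ := hA.isCompact.exists_isMinOn h hc.continuousOn
    have hpos : 0 < |(m.1 k : ℝ) - a.1 k| := by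
      rw [abs_pos, sub_ne_zero]
      exact fun h' => hj' m hm (Subtype.ext h')
    refine ⟨|(m.1 k : ℝ) - a.1 k| / 2, by linarith, fun x hx => ?_⟩
    have : |(m.1 k : ℝ) - a.1 k| ≤ |(x.1 k : ℝ) - a.1 k| := hmin hx
    linarith

/-- The pseudo-arc is hereditarily indecomposable. -/
theorem pa_hi {C : Set PA} (hC : IsContinuum C) : ¬ Decomposable C := by
  rintro ⟨A, B, hA, hB, hAC, hBC, hA2, hB2, hAB⟩
  obtain ⟨a, ha, haB⟩ : ∃ a ∈ C, a ∉ B := by
    by_contra hcon
    push Not at hcon
    exact hB2 (Subset.antisymm hBC hcon)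
  obtain ⟨b, hb, hbA⟩ : ∃ b ∈ C, b ∉ A := by
    by_contra hcon
    push Not at hcon
    exact hA2 (Subset.antisymm hAC hcon)
  obtain ⟨j1, hj1⟩ := coord_gap hB.1.isClosed haB
  obtain ⟨j2, hj2⟩ := coord_gap hA.1.isClosed hbA
  obtain ⟨ε1, hε1, h1⟩ := hj1 (max j1 j2) (le_max_left _ _)
  obtain ⟨ε2, hε2, h2⟩ := hj2 (max j1 j2) (le_max_right _ _)
  set j := max j1 j2 with hj
  obtain ⟨m, hm⟩ := exists_nat_one_div_lt (lt_min hε1 hε2)
  set n := max m j with hn
  have hnm : 1 / ((n : ℝ) + 1) ≤ 1 / ((m : ℝ) + 1) := by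
    apply one_div_le_one_div_of_le (by positivity)
    have : (m : ℝ) ≤ n := by exact_mod_cast le_max_left m j
    linarith
  have hn1 : 1 / ((n : ℝ) + 1) < ε1 := (hnm.trans_lt hm).trans_le (min_le_left _ _)
  have hn2 : 1 / ((n : ℝ) + 1) < ε2 := (hnm.trans_lt hm).trans_le (min_le_right _ _)
  have hA' : ∀ x ∈ A, 1 / ((n : ℝ) + 1) < |(x.1 j : ℝ) - b.1 j| := fun x hx => hn2.trans (h2 x hx)
  have hB' : ∀ x ∈ B, 1 / ((n : ℝ) + 1) < |(x.1 j : ℝ) - a.1 j| := fun x hx => hn1.trans (h1 x hx)
  rcases le_total (a.1 (n + 1)) (b.1 (n + 1)) with h | h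
  · exact pa_core hC.2.isPreconnected hB.2.isPreconnected hAB ha hb hbA (le_max_right m j) hA' hB' h
  · exact pa_core hC.2.isPreconnected hA.2.isPreconnected (by rw [union_comm]; exact hAB) hb ha haB
      (le_max_right m j) hB' hA' h

instance : ConnectedSpace PA := by
  have h := isPreconnected_Lim bond
  obtain ⟨x, hx, -⟩ := exists_mem_Lim bond bond_surj 0
  exact isConnected_iff_connectedSpace.1 ⟨⟨x, hx⟩, h⟩

instance : Nontrivial PA := by
  obtain ⟨x, hx, hx0⟩ := exists_mem_Lim bond bond_surj 0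
  obtain ⟨y, hy, hy0⟩ := exists_mem_Lim bond bond_surj 1
  refine ⟨⟨x, hx⟩, ⟨y, hy⟩, fun h => ?_⟩
  have h1 : x = y := congrArg Subtype.val h
  have h2 : (0 : I) = 1 := by rw [← hx0, ← hy0, h1]
  exact zero_ne_one h2

/-- a function on the pseudo-arc whose tree relation has classes of at most three points -/
theorem pa_generic : ∃ u : C(PA, ℝ), ∀ x : Fin 4 → PA, Function.Injective x →
    ¬ ∀ i, TRel u (x 0) (x i) := by
  let π' : ℕ → C(PA, ℝ) := fun n => ⟨fun x => (x.1 n : ℝ), continuous_coordR n⟩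
  let g' : ℕ → C(ℝ, ℝ) := fun n => ⟨fun r => (bond n (projIcc 0 1 zero_le_one r) : ℝ), by fun_prop⟩
  refine exists_generic (π := π') (g := g') ?_ ?_ ?_
  · intro n x
    show (x.1 n : ℝ) = (bond n (projIcc 0 1 zero_le_one (x.1 (n + 1) : ℝ)) : ℝ)
    rw [projIcc_val, x.2 n]
  · intro x y h
    apply Subtype.ext
    funext n
    exact Subtype.ext (h n)
  · intro n x
    show |(x.1 n : ℝ)| ≤ 1
    rw [abs_of_nonneg (x.1 n).2.1]
    exact (x.1 n).2.2

end Pool.Agent.Helper162.Arc
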