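import Pool.Agent.Helper162.Arc.Tree

set_option autoImplicit false
set_option linter.unusedSectionVars false

open Set Filter Topology

namespace Pool.Agent.Helper162.Arc

section stab
variable {X : Type} [TopologicalSpace X] [CompactSpace X] [T2Space X]

/-- Being in different components of superlevel sets is a stable property. -/
lemma stab {u : X → ℝ} (hu : Continuous u) {t : ℝ} {x y : X}
    (h : y ∉ connectedComponentIn {z | t ≤ u z} x) :
    ∃ ε > 0, ∃ U ∈ 𝓝 x, ∃ V ∈ 𝓝 y, ∀ (v : X → ℝ) (t' : ℝ), (∀ z, |v z - u z| < ε) →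
      |t' - t| < ε → ∀ x' ∈ U, ∀ y' ∈ V, y' ∉ connectedComponentIn {z | t' ≤ v z} x' := by
  rcases lt_or_ge (u x) t with hx | hx
  · refine ⟨(t - u x) / 3, by linarith, {z | u z < u x + (t - u x) / 3},
      (isOpen_lt hu continuous_const).mem_nhds (by show u x < _; linarith), univ, univ_mem, ?_⟩
    intro v t' hv ht' x' hx' y' _ hy'
    have h1 : x' ∉ {z | t' ≤ v z} := by
      intro h2
      have h3 : t' ≤ v x' := h2
      have h4 : u x' < u x + (t - u x) / 3 := hx'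
      have h5 := abs_lt.1 (hv x')
      have h6 := abs_lt.1 ht'
      linarith [h5.1, h5.2, h6.1, h6.2]
    rw [connectedComponentIn_eq_empty h1] at hy'
    exact hy'
  rcases lt_or_ge (u y) t with hy | hy
  · refine ⟨(t - u y) / 3, by linarith, univ, univ_mem, {z | u z < u y + (t - u y) / 3},
      (isOpen_lt hu continuous_const).mem_nhds (by show u y < _; linarith), ?_⟩
    intro v t' hv ht' x' _ y' hy' h1
    have h2 : y' ∈ {z | t' ≤ v z} := connectedComponentIn_subset {z | t' ≤ v z} x' h1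
    have h3 : t' ≤ v y' := h2
    have h4 : u y' < u y + (t - u y) / 3 := hy'
    have h5 := abs_lt.1 (hv y')
    have h6 := abs_lt.1 ht'
    linarith [h5.1, h5.2, h6.1, h6.2]
  obtain ⟨D, hD, hD2, hDZ, hxD, hyD⟩ := sep_point (Z := {z | t ≤ u z})
    (isClosed_le continuous_const hu) (a := x) (b := y) hx hy h
  obtain ⟨O1, O2, hO1, hO2, hDO1, hDO2, hO⟩ := normal_separation hD hD2 disjoint_sdiff_right
  -- a uniform gap outside `O1 ∪ O2`
  obtain ⟨ε, hε, hgap⟩ : ∃ ε > 0, ∀ z ∉ O1 ∪ O2, u z ≤ t - 2 * ε := by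
    by_cases hne : ((O1 ∪ O2)ᶜ).Nonempty
    · have hc : IsCompact ((O1 ∪ O2)ᶜ) := (hO1.union hO2).isClosed_compl.isCompact
      obtain ⟨m, hm, hmax⟩ := hc.exists_isMaxOn hne hu.continuousOn
      have hmt : u m < t := by
        by_contra hcon
        have h1 : m ∈ {z | t ≤ u z} := not_lt.1 hcon
        by_cases h2 : m ∈ D
        · exact hm (Or.inl (hDO1 h2))
        · exact hm (Or.inr (hDO2 ⟨h1, h2⟩))
      refine ⟨(t - u m) / 2, by linarith, fun z hz => ?_⟩
      have : u z ≤ u m := hmax hz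
      linarith
    · refine ⟨1, one_pos, fun z hz => absurd ⟨z, hz⟩ hne⟩
  refine ⟨ε, hε, O1, hO1.mem_nhds (hDO1 hxD), O2, hO2.mem_nhds (hDO2 ⟨hy, hyD⟩), ?_⟩
  intro v t' hv ht' x' hx' y' hy' hcc
  have hsub : {z | t' ≤ v z} ⊆ O1 ∪ O2 := by
    intro z hz
    by_contra hcon
    have h1 := hgap z hcon
    have h2 : t' ≤ v z := hz
    have h5 := abs_lt.1 (hv z)
    have h6 := abs_lt.1 ht'
    linarith [h5.1, h5.2, h6.1, h6.2]
  have hx'' : x' ∈ {z | t' ≤ v z} := by
    by_contra hcon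
    rw [connectedComponentIn_eq_empty hcon] at hcc
    exact hcc
  have hcs : connectedComponentIn {z | t' ≤ v z} x' ⊆ O1 ∪ O2 :=
    (connectedComponentIn_subset {z | t' ≤ v z} x').trans hsub
  rcases isPreconnected_connectedComponentIn.subset_or_subset hO1 hO2 hO hcs with h | h
  · exact Set.disjoint_left.1 hO (h hcc) hy'
  · exact Set.disjoint_left.1 hO hx' (h (mem_connectedComponentIn hx''))

lemma isClosed_TRel {u : X → ℝ} (hu : Continuous u) : IsClosed {p : X × X | TRel u p.1 p.2} := by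
  have h1 : IsClosed {p : X × X | u p.1 = u p.2} :=
    isClosed_eq (hu.comp continuous_fst) (hu.comp continuous_snd)
  have h2 : IsClosed {p : X × X | p.2 ∈ connectedComponentIn {z | u p.1 ≤ u z} p.1} := by
    rw [← isOpen_compl_iff, isOpen_iff_mem_nhds]
    rintro ⟨x, y⟩ hxy
    obtain ⟨ε, hε, U, hU, V, hV, h⟩ := stab hu (t := u x) (x := x) (y := y) hxy
    have h3 : {p : X × X | |u p.1 - u x| < ε} ∈ 𝓝 (x, y) := by
      apply (isOpen_lt (by fun_prop) continuous_const).mem_nhds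
      show |u x - u x| < ε
      simpa using hε
    filter_upwards [h3, prod_mem_nhds hU hV] with p hp hp'
    exact h u (u p.1) (fun z => by simpa using hε) hp p.1 hp'.1 p.2 hp'.2
  exact h1.inter h2

end stab

section lam

/-- four distinct reals contain an increasing chain -/
lemma four_chain {e : Fin 4 → ℝ} (he : Function.Injective e) :
    ∃ i j k l, e i < e j ∧ e j < e k ∧ e k < e l := by
  classical
  have hc : (Finset.univ.image e).card = 4 := by
    rw [Finset.card_image_of_injective _ he]; simp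
  set o := (Finset.univ.image e).orderEmbOfFin hc with ho
  have hmem : ∀ a, ∃ i, e i = o a := by
    intro a
    obtain ⟨i, _, hi⟩ := Finset.mem_image.1 (Finset.orderEmbOfFin_mem (Finset.univ.image e) hc a)
    exact ⟨i, hi⟩
  obtain ⟨i, hi⟩ := hmem 0
  obtain ⟨j, hj⟩ := hmem 1
  obtain ⟨k, hk⟩ := hmem 2
  obtain ⟨l, hl⟩ := hmem 3
  refine ⟨i, j, k, l, ?_, ?_, ?_⟩
  · rw [hi, hj]; exact o.strictMono (by decide)
  · rw [hj, hk]; exact o.strictMono (by decide)
  · rw [hk, hl]; exact o.strictMono (by decide)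

/-- equal minima of `w + l x` over `[p,q]` and `[r,s]` -/
def EqMin (w : ℝ → ℝ) (l p q r s : ℝ) : Prop :=
  ∃ x ∈ Icc p q, ∃ y ∈ Icc r s, (∀ z ∈ Icc p q, w x + l * x ≤ w z + l * z) ∧
    (∀ z ∈ Icc r s, w y + l * y ≤ w z + l * z) ∧ w x + l * x = w y + l * y

lemma eqMin_unique {w : ℝ → ℝ} {l m p q r s : ℝ} (hqr : q < r) (hlm : l < m)
    (h1 : EqMin w l p q r s) (h2 : EqMin w m p q r s) : False := by
  obtain ⟨x, hx, y, hy, hx1, hy1, he⟩ := h1
  obtain ⟨x', hx', y', hy', hx1', hy1', he'⟩ := h2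
  have a1 := hx1' x hx
  have a2 := hy1 y' hy'
  have b1 : (m - l) * x ≤ (m - l) * q := mul_le_mul_of_nonneg_left hx.2 (by linarith)
  have b2 : (m - l) * r ≤ (m - l) * y' := mul_le_mul_of_nonneg_left hy'.1 (by linarith)
  have b3 : (m - l) * q < (m - l) * r := mul_lt_mul_of_pos_left hqr (by linarith)
  nlinarith

lemma exists_lam (w : ℝ → ℝ) {ε : ℝ} (hε : 0 < ε) :
    ∃ l, 0 < l ∧ l < ε ∧ ∀ p q r s : ℚ, (q : ℝ) < r → ¬ EqMin w l p q r s := by
  set B : Set ℝ := ⋃ a : ℚ × ℚ × ℚ × ℚ,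
    {l | (a.2.1 : ℝ) < a.2.2.1 ∧ EqMin w l a.1 a.2.1 a.2.2.1 a.2.2.2} with hB
  have hBc : B.Countable := by
    apply countable_iUnion
    rintro ⟨p, q, r, s⟩
    apply Set.Subsingleton.countable
    rintro l ⟨h1, h2⟩ m ⟨h3, h4⟩
    rcases lt_trichotomy l m with h | h | h
    · exact (eqMin_unique h1 h h2 h4).elim
    · exact h
    · exact (eqMin_unique h1 h h4 h2).elim
  have hd : Dense Bᶜ := hBc.dense_compl ℝ
  obtain ⟨l, hl, h1, h2⟩ := hd.exists_between hε
  refine ⟨l, h1, h2, ?_⟩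
  intro p q r s hqr hE
  exact hl (mem_iUnion.2 ⟨(p, q, r, s), hqr, hE⟩)

lemma no_four {w : ℝ → ℝ} {l : ℝ} (hl : ∀ p q r s : ℚ, (q : ℝ) < r → ¬ EqMin w l p q r s)
    {J : Set ℝ} (hJ : J.OrdConnected) {t : ℝ} (hJt : ∀ z ∈ J, t ≤ w z + l * z) {e : Fin 4 → ℝ}
    (he : Function.Injective e) (heJ : ∀ i, e i ∈ J) (het : ∀ i, w (e i) + l * e i = t) :
    False := by
  obtain ⟨i, j, k, m, h1, h2, h3⟩ := four_chain he
  obtain ⟨p, hp1, hp2⟩ := exists_rat_btwn h1
  obtain ⟨s, hs1, hs2⟩ := exists_rat_btwn h3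
  obtain ⟨q, hq1, hq2⟩ := exists_rat_btwn h2
  obtain ⟨r, hr1, hr2⟩ := exists_rat_btwn hq2
  have hsub1 : Icc (p : ℝ) q ⊆ J := (Icc_subset_Icc hp1.le (hq2.le.trans h3.le)).trans
    (hJ.out (heJ i) (heJ m))
  have hsub2 : Icc (r : ℝ) s ⊆ J := (Icc_subset_Icc ((h1.trans hq1).le.trans hr1.le) hs2.le).trans
    (hJ.out (heJ i) (heJ m))
  refine hl p q r s hr1 ⟨e j, ⟨hp2.le, hq1.le⟩, e k, ⟨hr2.le, hs1.le⟩, ?_, ?_, ?_⟩
  · intro z hz
    rw [het]; exact hJt z (hsub1 hz)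
  · intro z hz
    rw [het]; exact hJt z (hsub2 hz)
  · rw [het, het]

end lam

section gen
variable {X : Type} [TopologicalSpace X] [CompactSpace X] [T2Space X]
  (π : ℕ → C(X, ℝ)) (g : ℕ → C(ℝ, ℝ))

/-- bad quadruples -/
def Sbad (n m : ℕ) : Set (C(X, ℝ) × (Fin 4 → X)) :=
  {p | (∀ i j, i ≠ j → 1 / ((m : ℝ) + 1) ≤ |π n (p.2 i) - π n (p.2 j)|) ∧
    ∀ i, p.1 (p.2 0) = p.1 (p.2 i) ∧ p.2 i ∈ connectedComponentIn {z | p.1 (p.2 0) ≤ p.1 z} (p.2 0)}

lemma isClosed_Sbad (n m : ℕ) : IsClosed (Sbad π n m) := by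
  have hev : ∀ i : Fin 4, Continuous fun p : C(X, ℝ) × (Fin 4 → X) => p.1 (p.2 i) := by
    intro i
    fun_prop
  have h1 : IsClosed {p : C(X, ℝ) × (Fin 4 → X) | ∀ i j, i ≠ j →
      1 / ((m : ℝ) + 1) ≤ |π n (p.2 i) - π n (p.2 j)|} := by
    simp only [Set.ofPred_forall]
    refine isClosed_iInter fun i => isClosed_iInter fun j => isClosed_iInter fun _ => ?_
    exact isClosed_le continuous_const (by fun_prop)
  have h2 : IsClosed {p : C(X, ℝ) × (Fin 4 → X) | ∀ i, p.1 (p.2 0) = p.1 (p.2 i)} := by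
    simp only [Set.ofPred_forall]
    exact isClosed_iInter fun i => isClosed_eq (hev 0) (hev i)
  have h3 : IsClosed {p : C(X, ℝ) × (Fin 4 → X) | ∀ i,
      p.2 i ∈ connectedComponentIn {z | p.1 (p.2 0) ≤ p.1 z} (p.2 0)} := by
    simp only [Set.ofPred_forall]
    refine isClosed_iInter fun i => ?_
    rw [← isOpen_compl_iff, isOpen_iff_mem_nhds]
    rintro ⟨u, x⟩ hux
    obtain ⟨ε, hε, U, hU, V, hV, h⟩ := stab u.continuous (t := u (x 0)) (x := x 0) (y := x i) hux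
    have a1 : {p : C(X, ℝ) × (Fin 4 → X) | |p.1 (p.2 0) - u (x 0)| < ε} ∈ 𝓝 (u, x) := by
      apply (isOpen_lt (by fun_prop) continuous_const).mem_nhds
      show |u (x 0) - u (x 0)| < ε
      simpa using hε
    have a2 : {p : C(X, ℝ) × (Fin 4 → X) | dist p.1 u < ε} ∈ 𝓝 (u, x) := by
      apply (isOpen_lt (by fun_prop) continuous_const).mem_nhds
      show dist u u < ε
      simpa using hε
    have a3 : {p : C(X, ℝ) × (Fin 4 → X) | p.2 0 ∈ U} ∈ 𝓝 (u, x) := by
      have : Tendsto (fun p : C(X, ℝ) × (Fin 4 → X) => p.2 0) (𝓝 (u, x)) (𝓝 (x 0)) :=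
        Continuous.tendsto (by fun_prop) _
      exact this hU
    have a4 : {p : C(X, ℝ) × (Fin 4 → X) | p.2 i ∈ V} ∈ 𝓝 (u, x) := by
      have : Tendsto (fun p : C(X, ℝ) × (Fin 4 → X) => p.2 i) (𝓝 (u, x)) (𝓝 (x i)) :=
        Continuous.tendsto (by fun_prop) _
      exact this hV
    filter_upwards [a1, a2, a3, a4] with p b1 b2 b3 b4
    refine h p.1 (p.1 (p.2 0)) (fun z => ?_) b1 (p.2 0) b3 (p.2 i) b4
    rw [← Real.dist_eq]
    exact lt_of_le_of_lt (ContinuousMap.dist_apply_le_dist z) b2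
  have : Sbad π n m = {p | ∀ i j, i ≠ j → 1 / ((m : ℝ) + 1) ≤ |π n (p.2 i) - π n (p.2 j)|} ∩
    ({p | ∀ i, p.1 (p.2 0) = p.1 (p.2 i)} ∩
      {p | ∀ i, p.2 i ∈ connectedComponentIn {z | p.1 (p.2 0) ≤ p.1 z} (p.2 0)}) := by
    ext p
    simp only [Sbad, Set.mem_ofPred_eq, Set.mem_inter_iff, forall_and]
  rw [this]
  exact h1.inter (h2.inter h3)

/-- bad functions -/
def Bad (n m : ℕ) : Set C(X, ℝ) := Prod.fst '' Sbad π n m

lemma isClosed_Bad (n m : ℕ) : IsClosed (Bad π n m) :=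
  isClosedMap_fst_of_compactSpace _ (isClosed_Sbad π n m)

variable {π g}

lemma factor (hπ : ∀ n x, π n x = g n (π (n + 1) x)) (n k : ℕ) :
    ∃ G : C(ℝ, ℝ), ∀ x, π n x = G (π (n + k) x) := by
  induction k with
  | zero => exact ⟨ContinuousMap.id ℝ, fun x => rfl⟩
  | succ k ih =>
    obtain ⟨G, hG⟩ := ih
    exact ⟨G.comp (g (n + k)), fun x => by rw [hG x, hπ (n + k) x]; rfl⟩

/-- the algebra of functions factoring through one coordinate -/
def FAlg (hπ : ∀ n x, π n x = g n (π (n + 1) x)) : Subalgebra ℝ C(X, ℝ) where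
  carrier := {f | ∃ (n : ℕ) (w : C(ℝ, ℝ)), ∀ x, f x = w (π n x)}
  mul_mem' := by
    rintro f f' ⟨n, w, hw⟩ ⟨n', w', hw'⟩
    obtain ⟨G, hG⟩ := factor hπ n n'
    obtain ⟨G', hG'⟩ := factor hπ n' n
    refine ⟨n + n', (w.comp G) * (w'.comp G'), fun x => ?_⟩
    have h2 : π n' x = G' (π (n + n') x) := by rw [add_comm n n']; exact hG' x
    simp only [ContinuousMap.mul_apply, ContinuousMap.comp_apply]
    rw [hw, hw', ← hG x, ← h2]
  add_mem' := by
    rintro f f' ⟨n, w, hw⟩ ⟨n', w', hw'⟩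
    obtain ⟨G, hG⟩ := factor hπ n n'
    obtain ⟨G', hG'⟩ := factor hπ n' n
    refine ⟨n + n', (w.comp G) + (w'.comp G'), fun x => ?_⟩
    have h2 : π n' x = G' (π (n + n') x) := by rw [add_comm n n']; exact hG' x
    simp only [ContinuousMap.add_apply, ContinuousMap.comp_apply]
    rw [hw, hw', ← hG x, ← h2]
  algebraMap_mem' := by
    intro r
    exact ⟨0, ContinuousMap.const ℝ r, fun x => rfl⟩

lemma sepPoints (hπ : ∀ n x, π n x = g n (π (n + 1) x))
    (hsep : ∀ x y, (∀ n, π n x = π n y) → x = y) : (FAlg hπ).SeparatesPoints := by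
  intro x y hxy
  have : ∃ n, π n x ≠ π n y := by
    by_contra hcon
    push Not at hcon
    exact hxy (hsep x y hcon)
  obtain ⟨n, hn⟩ := this
  exact ⟨π n, ⟨π n, ⟨n, ContinuousMap.id ℝ, fun x => rfl⟩, rfl⟩, hn⟩

lemma dense_good (hπ : ∀ n x, π n x = g n (π (n + 1) x))
    (hsep : ∀ x y, (∀ n, π n x = π n y) → x = y) (hb : ∀ n x, |π n x| ≤ 1) (n m : ℕ) :
    Dense (Bad π n m)ᶜ := by
  rw [Metric.dense_iff]
  intro u ε hε
  obtain ⟨⟨f, hfA⟩, hf⟩ := ContinuousMap.exists_mem_subalgebra_near_continuous_of_separatesPoints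
    (FAlg hπ) (sepPoints hπ hsep) u u.continuous (ε / 4) (by linarith)
  obtain ⟨k, w, hw⟩ := hfA
  obtain ⟨G, hG⟩ := factor hπ k n
  obtain ⟨G', hG'⟩ := factor hπ n k
  set w' : C(ℝ, ℝ) := w.comp G with hw'
  have hfw : ∀ x, f x = w' (π (k + n) x) := fun x => by
    rw [hw, hw', ContinuousMap.comp_apply, ← hG]
  obtain ⟨l, hl0, hl1, hl⟩ := exists_lam w' (ε := ε / 4) (by linarith)
  set v : C(X, ℝ) := f + l • π (k + n) with hv
  have hvx : ∀ x, v x = w' (π (k + n) x) + l * π (k + n) x := fun x => by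
    rw [← hfw]; simp [hv]
  refine ⟨v, ?_, ?_⟩
  · rw [Metric.mem_ball, ContinuousMap.dist_lt_iff hε]
    intro x
    rw [Real.dist_eq]
    have h1 : |f x - u x| < ε / 4 := by
      have := hf x
      rwa [Real.norm_eq_abs] at this
    have h2 : |l * π (k + n) x| ≤ ε / 4 := by
      rw [abs_mul, abs_of_pos hl0]
      calc l * |π (k + n) x| ≤ l * 1 := mul_le_mul_of_nonneg_left (hb _ _) hl0.le
        _ ≤ ε / 4 := by linarith
    have h3 : v x - u x = (f x - u x) + l * π (k + n) x := by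
      rw [hvx, hfw]; ring
    rw [h3]
    calc _ ≤ |f x - u x| + |l * π (k + n) x| := abs_add_le _ _
      _ < ε := by linarith
  · rintro ⟨⟨v', x⟩, ⟨hx1, hx2⟩, hvv⟩
    change v' = v at hvv
    subst hvv
    simp only at hx1 hx2
    set C := connectedComponentIn {z | v (x 0) ≤ v z} (x 0) with hC
    have hCp : IsPreconnected C := isPreconnected_connectedComponentIn
    have hJ : (π (k + n) '' C).OrdConnected :=
      (hCp.image _ (π (k + n)).continuous.continuousOn).ordConnected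
    refine no_four hl hJ (t := v (x 0)) ?_ (e := fun i => π (k + n) (x i)) ?_ ?_ ?_
    · rintro _ ⟨z, hz, rfl⟩
      have h1 : z ∈ {z | v (x 0) ≤ v z} := connectedComponentIn_subset {z | v (x 0) ≤ v z} (x 0) hz
      have h2 : v (x 0) ≤ v z := h1
      rw [hvx z] at h2
      exact h2
    · intro i j hij
      by_contra hne
      have h1 := hx1 i j hne
      have h2 : π n (x i) = π n (x j) := by
        have a1 : π n (x i) = G' (π (n + k) (x i)) := hG' (x i)
        have a2 : π n (x j) = G' (π (n + k) (x j)) := hG' (x j)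
        have a3 : π (n + k) (x i) = π (n + k) (x j) := by rw [add_comm n k]; exact hij
        rw [a1, a2, a3]
      rw [h2, sub_self, abs_zero] at h1
      have : (0 : ℝ) < 1 / ((m : ℝ) + 1) := by positivity
      linarith
    · intro i
      exact ⟨x i, (hx2 i).2, rfl⟩
    · intro i
      show w' (π (k + n) (x i)) + l * π (k + n) (x i) = v (x 0)
      rw [← hvx, ← (hx2 i).1]

/-- There is a continuous function whose tree relation has at most three points in each class. -/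
theorem exists_generic (hπ : ∀ n x, π n x = g n (π (n + 1) x))
    (hsep : ∀ x y, (∀ n, π n x = π n y) → x = y) (hb : ∀ n x, |π n x| ≤ 1) :
    ∃ u : C(X, ℝ), ∀ x : Fin 4 → X, Function.Injective x → ¬ ∀ i, TRel u (x 0) (x i) := by
  have hd : Dense (⋂ a : ℕ × ℕ, (Bad π a.1 a.2)ᶜ) :=
    dense_iInter_of_isOpen (fun a => (isClosed_Bad π a.1 a.2).isOpen_compl)
      (fun a => dense_good hπ hsep hb a.1 a.2)
  obtain ⟨u, hu⟩ := hd.nonempty
  refine ⟨u, ?_⟩
  intro x hx hT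
  -- a coordinate separating the four points
  have hex : ∀ i j : Fin 4, i ≠ j → ∃ n, π n (x i) ≠ π n (x j) := by
    intro i j hij
    by_contra hcon
    push Not at hcon
    exact hij (hx (hsep _ _ hcon))
  have hmono : ∀ i j : Fin 4, ∀ n k, π n (x i) ≠ π n (x j) → π (n + k) (x i) ≠ π (n + k) (x j) := by
    intro i j n k h h'
    obtain ⟨G, hG⟩ := factor hπ n k
    exact h (by rw [hG, hG, h'])
  choose! N hN using hex
  obtain ⟨M, hM⟩ : ∃ M, ∀ i j : Fin 4, i ≠ j → π M (x i) ≠ π M (x j) := by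
    refine ⟨∑ i, ∑ j, N i j, fun i j hij => ?_⟩
    have h1 : N i j ≤ ∑ i, ∑ j, N i j :=
      (Finset.single_le_sum (f := fun j => N i j) (fun _ _ => Nat.zero_le _)
        (Finset.mem_univ j)).trans
      (Finset.single_le_sum (f := fun i => ∑ j, N i j) (fun _ _ => Nat.zero_le _)
        (Finset.mem_univ i))
    obtain ⟨k, hk⟩ := Nat.exists_eq_add_of_le h1
    rw [hk]
    exact hmono i j _ k (hN i j hij)
  obtain ⟨m, hm⟩ : ∃ m : ℕ, ∀ i j : Fin 4, i ≠ j →
      1 / ((m : ℝ) + 1) ≤ |π M (x i) - π M (x j)| := by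
    have h1 : ∀ i j : Fin 4, i ≠ j → ∃ m : ℕ, 1 / ((m : ℝ) + 1) < |π M (x i) - π M (x j)| :=
      fun i j hij => exists_nat_one_div_lt (abs_pos.2 (sub_ne_zero.2 (hM i j hij)))
    choose! F hF using h1
    refine ⟨∑ i, ∑ j, F i j, fun i j hij => ?_⟩
    have h2 : F i j ≤ ∑ i, ∑ j, F i j :=
      (Finset.single_le_sum (f := fun j => F i j) (fun _ _ => Nat.zero_le _)
        (Finset.mem_univ j)).trans
      (Finset.single_le_sum (f := fun i => ∑ j, F i j) (fun _ _ => Nat.zero_le _)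
        (Finset.mem_univ i))
    have h3 : (F i j : ℝ) ≤ ((∑ i, ∑ j, F i j : ℕ) : ℝ) := by exact_mod_cast h2
    refine le_trans ?_ (hF i j hij).le
    apply one_div_le_one_div_of_le
    · positivity
    · linarith
  have := mem_iInter.1 hu (M, m)
  apply this
  exact ⟨(u, x), ⟨hm, hT⟩, rfl⟩

end gen

end Pool.Agent.Helper162.Arc
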