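import Pool.Agent.Helper162.Arc.Gen

set_option autoImplicit false
set_option linter.unusedSectionVars false

open Set Filter Topology

namespace Pool.Agent.Helper162.Arc

section quot
variable {X : Type} [TopologicalSpace X] [CompactSpace X] [T2Space X]

/-- A closed continuous surjection of a second countable compact space has second countable
image. -/
lemma secondCountable_image {Y : Type} [TopologicalSpace Y] [T2Space Y]
    [SecondCountableTopology X] {f : X → Y} (hf : Continuous f) (hfs : Function.Surjective f) :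
    SecondCountableTopology Y := by
  classical
  have hcl : IsClosedMap f := hf.isClosedMap
  obtain ⟨B, hBc, -, hB⟩ := TopologicalSpace.exists_countable_basis X
  set 𝒞 : Set (Set Y) := (fun s : Set (Set X) => (f '' (⋃₀ s)ᶜ)ᶜ) '' {s | s.Finite ∧ s ⊆ B} with h𝒞
  have h𝒞c : 𝒞.Countable := (Set.countable_setOf_finite_subset hBc).image _
  have hopen : ∀ s : Set (Set X), s ⊆ B → IsOpen (⋃₀ s) := fun s hs =>
    isOpen_sUnion fun U hU => hB.isOpen (hs hU)
  have hbase : TopologicalSpace.IsTopologicalBasis 𝒞 := by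
    apply TopologicalSpace.isTopologicalBasis_of_isOpen_of_nhds
    · rintro _ ⟨s, ⟨hs1, hs2⟩, rfl⟩
      exact (hcl _ (hopen s hs2).isClosed_compl).isOpen_compl
    · intro y W hy hW
      have hK : IsCompact (f ⁻¹' {y}) := (isClosed_singleton.preimage hf).isCompact
      have hch : ∀ x ∈ f ⁻¹' {y}, ∃ U ∈ B, x ∈ U ∧ U ⊆ f ⁻¹' W := by
        intro x hx
        have hx' : x ∈ f ⁻¹' W := by
          rw [mem_preimage, show f x = y from hx]; exact hy
        exact hB.exists_subset_of_mem_open hx' (hW.preimage hf)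
      choose! U hU1 hU2 hU3 using hch
      obtain ⟨t, ht1, ht2⟩ := hK.elim_nhds_subcover U
        (fun x hx => (hB.isOpen (hU1 x hx)).mem_nhds (hU2 x hx))
      refine ⟨_, ⟨U '' (t : Set X), ⟨t.finite_toSet.image _, ?_⟩, rfl⟩, ?_, ?_⟩
      · rintro _ ⟨x, hx, rfl⟩
        exact hU1 x (ht1 x hx)
      · rintro ⟨x, hx, hxy⟩
        apply hx
        have := ht2 hxy
        simp only [mem_iUnion] at this
        obtain ⟨z, hz, hz2⟩ := this
        exact ⟨U z, ⟨z, hz, rfl⟩, hz2⟩
      · intro w hw
        obtain ⟨x, rfl⟩ := hfs w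
        have hx : x ∈ ⋃₀ (U '' (t : Set X)) := by
          by_contra hcon
          exact hw ⟨x, hcon, rfl⟩
        obtain ⟨_, ⟨z, hz, rfl⟩, hxz⟩ := hx
        exact hU3 z (ht1 z hz) hxz
  exact hbase.secondCountableTopology h𝒞c

/-- the tree relation as a setoid -/
def treeSetoid (u : X → ℝ) : Setoid X :=
  ⟨TRel u, TRel.refl u, fun h => TRel.symm h, fun h h' => TRel.trans h h'⟩

/-- The tree quotient. -/
theorem exists_quotient {u : X → ℝ} (hu : Continuous u) :
    ∃ (Y : Type) (_ : TopologicalSpace Y), CompactSpace Y ∧ T2Space Y ∧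
      ∃ (f : X → Y) (v : Y → ℝ), Continuous f ∧ Function.Surjective f ∧ Continuous v ∧
        (∀ x, v (f x) = u x) ∧ ∀ x y, f x = f y ↔ TRel u x y := by
  set S : Setoid X := treeSetoid u with hS
  let f : X → Quotient S := Quotient.mk S
  have hfc : Continuous f := continuous_quotient_mk'
  have hfs : Function.Surjective f := Quotient.mk_surjective
  have hfeq : ∀ x y, f x = f y ↔ TRel u x y := fun x y => Quotient.eq (r := S)
  have hR : IsClosed {p : X × X | TRel u p.1 p.2} := isClosed_TRel hu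
  have hcl : IsClosedMap f := by
    intro F hF
    have hq : IsQuotientMap f := isQuotientMap_quotient_mk'
    rw [← hq.isClosed_preimage]
    have : f ⁻¹' (f '' F) = Prod.snd '' ({p : X × X | TRel u p.1 p.2} ∩ Prod.fst ⁻¹' F) := by
      ext y
      constructor
      · rintro ⟨x, hx, hxy⟩
        exact ⟨(x, y), ⟨(hfeq x y).mp hxy, hx⟩, rfl⟩
      · rintro ⟨⟨x, z⟩, ⟨h1, h2⟩, rfl⟩
        exact ⟨x, h2, (hfeq x z).mpr h1⟩
    rw [this]
    exact ((hR.inter (hF.preimage continuous_fst)).isCompact.image continuous_snd).isClosed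
  have hT2 : T2Space (Quotient S) := by
    refine ⟨fun p q hpq => ?_⟩
    obtain ⟨x, rfl⟩ := hfs p
    obtain ⟨y, rfl⟩ := hfs q
    have hK : ∀ z, IsClosed (f ⁻¹' {f z}) := fun z => by
      have : IsClosed (f '' {z}) := hcl _ isClosed_singleton
      rw [image_singleton] at this
      exact this.preimage hfc
    have hdis : Disjoint (f ⁻¹' {f x}) (f ⁻¹' {f y}) := by
      rw [Set.disjoint_left]
      intro w hw1 hw2
      have h1 : f w = f x := hw1
      have h2 : f w = f y := hw2
      exact hpq (h1.symm.trans h2)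
    obtain ⟨U1, U2, ho1, ho2, hs1, hs2, hU⟩ := normal_separation (hK x) (hK y) hdis
    refine ⟨(f '' U1ᶜ)ᶜ, (f '' U2ᶜ)ᶜ, (hcl _ ho1.isClosed_compl).isOpen_compl,
      (hcl _ ho2.isClosed_compl).isOpen_compl, ?_, ?_, ?_⟩
    · rintro ⟨u, hu, huf⟩
      exact hu (hs1 huf)
    · rintro ⟨u, hu, huf⟩
      exact hu (hs2 huf)
    · rw [Set.disjoint_left]
      intro z hz1 hz2
      obtain ⟨w, rfl⟩ := hfs z
      have h1 : w ∈ U1 := by_contra fun h => hz1 ⟨w, h, rfl⟩
      have h2 : w ∈ U2 := by_contra fun h => hz2 ⟨w, h, rfl⟩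
      exact Set.disjoint_left.mp hU h1 h2
  refine ⟨Quotient S, inferInstance, inferInstance, hT2, f,
    Quotient.lift u (fun a b (h : TRel u a b) => h.1), hfc, hfs,
    hu.quotient_lift (fun a b (h : TRel u a b) => h.1), fun x => rfl, hfeq⟩

end quot

end Pool.Agent.Helper162.Arc
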