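import Mathlib

set_option autoImplicit false
set_option linter.unusedSectionVars false

open Set Filter Topology

namespace Pool.Agent.Helper162.Arc

section basic
variable {X : Type} [TopologicalSpace X]

/-- A (sub)continuum: a compact connected nonempty set. -/
def IsContinuum (K : Set X) : Prop := IsCompact K ∧ IsConnected K

/-- A set which is the union of two proper subcontinua. -/
def Decomposable (K : Set X) : Prop :=
  ∃ A B : Set X, IsContinuum A ∧ IsContinuum B ∧ A ⊆ K ∧ B ⊆ K ∧ A ≠ K ∧ B ≠ K ∧ A ∪ B = K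

variable [CompactSpace X] [T2Space X]

lemma isClosed_cc {Z : Set X} (hZ : IsClosed Z) (x : X) : IsClosed (connectedComponentIn Z x) := by
  by_cases hx : x ∈ Z
  · rw [connectedComponentIn_eq_image hx]
    exact (hZ.isClosedEmbedding_subtypeVal).isClosedMap _ isClosed_connectedComponent
  · rw [connectedComponentIn_eq_empty hx]; exact isClosed_empty

lemma sep_point {Z : Set X} (hZ : IsClosed Z) {a b : X} (ha : a ∈ Z) (hb : b ∈ Z)
    (h : b ∉ connectedComponentIn Z a) :
    ∃ D : Set X, IsClosed D ∧ IsClosed (Z \ D) ∧ D ⊆ Z ∧ a ∈ D ∧ b ∉ D := by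
  have : CompactSpace Z := isCompact_iff_compactSpace.mp hZ.isCompact
  have h1 : (⟨b, hb⟩ : Z) ∉ connectedComponent (⟨a, ha⟩ : Z) := by
    intro hc
    apply h
    rw [connectedComponentIn_eq_image ha]
    exact ⟨_, hc, rfl⟩
  rw [connectedComponent_eq_iInter_isClopen] at h1
  simp only [mem_iInter, not_forall] at h1
  obtain ⟨⟨D, hD, haD⟩, hbD⟩ := h1
  refine ⟨(↑) '' D, (hZ.isClosedEmbedding_subtypeVal).isClosedMap _ hD.1, ?_, ?_, ⟨_, haD, rfl⟩, ?_⟩
  · have : Z \ ((↑) '' D) = ((↑) '' Dᶜ : Set X) := by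
      ext x; constructor
      · rintro ⟨hx, hx2⟩
        exact ⟨⟨x, hx⟩, fun h => hx2 ⟨_, h, rfl⟩, rfl⟩
      · rintro ⟨y, hy, rfl⟩
        exact ⟨y.2, fun ⟨w, hw, hwy⟩ => hy (by rwa [Subtype.ext hwy] at hw)⟩
    rw [this]
    exact (hZ.isClosedEmbedding_subtypeVal).isClosedMap _ hD.2.isClosed_compl
  · rintro _ ⟨y, _, rfl⟩; exact y.2
  · rintro ⟨y, hy, hyb⟩
    apply hbD
    have : y = ⟨b, hb⟩ := Subtype.ext hyb
    rwa [this] at hy

lemma sep_pset {Z B : Set X} (hZ : IsClosed Z) (hB : IsClosed B) {a : X} (ha : a ∈ Z)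
    (h : Disjoint (connectedComponentIn Z a) B) :
    ∃ D : Set X, IsClosed D ∧ IsClosed (Z \ D) ∧ D ⊆ Z ∧ a ∈ D ∧ Disjoint D B := by
  classical
  have hcomp : IsCompact (B ∩ Z) := (hB.inter hZ).isCompact
  have key : ∀ b ∈ B ∩ Z, ∃ D : Set X, IsClosed D ∧ IsClosed (Z \ D) ∧ D ⊆ Z ∧ a ∈ D ∧ b ∉ D := by
    intro b hb
    exact sep_point hZ ha hb.2 (fun hc => (Set.disjoint_left.mp h) hc hb.1)
  choose! D h1 h2 h3 h4 h5 using key
  obtain ⟨t, ht⟩ := hcomp.elim_nhds_subcover' (fun b hb => (D b)ᶜ) (fun b hb =>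
    (h1 b hb).isOpen_compl.mem_nhds (h5 b hb))
  refine ⟨Z ∩ ⋂ b ∈ t, D b, ?_, ?_, inter_subset_left, ?_, ?_⟩
  · exact hZ.inter (isClosed_biInter fun b hb => h1 b b.2)
  · have : Z \ (Z ∩ ⋂ b ∈ t, D b) = ⋃ b ∈ t, (Z \ D b) := by
      ext x; simp only [Set.mem_sdiff, mem_inter_iff, mem_iInter, mem_iUnion]
      constructor
      · rintro ⟨hx, hn⟩
        by_contra hcon
        push Not at hcon
        exact hn ⟨hx, fun b hb => hcon b hb hx⟩
      · rintro ⟨b, hb, hx, hn⟩
        exact ⟨hx, fun hh => hn (hh.2 b hb)⟩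
    rw [this]
    exact t.finite_toSet.isClosed_biUnion fun b hb => h2 b b.2
  · exact ⟨ha, by simp only [mem_iInter]; intro b hb; exact h4 b b.2⟩
  · rw [Set.disjoint_left]
    rintro x ⟨hxZ, hx⟩ hxB
    have := ht ⟨hxB, hxZ⟩
    simp only [mem_iUnion] at this
    obtain ⟨b, hb, hxb⟩ := this
    simp only [mem_iInter] at hx
    exact hxb (hx b hb)

lemma cutwire {Z A B : Set X} (hZ : IsClosed Z) (hA : IsClosed A) (hB : IsClosed B) (hAZ : A ⊆ Z)
    (h : ∀ a ∈ A, Disjoint (connectedComponentIn Z a) B) :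
    ∃ D : Set X, IsClosed D ∧ IsClosed (Z \ D) ∧ D ⊆ Z ∧ A ⊆ D ∧ Disjoint D B := by
  classical
  have key : ∀ a ∈ A, ∃ D : Set X, IsClosed D ∧ IsClosed (Z \ D) ∧ D ⊆ Z ∧ a ∈ D ∧ Disjoint D B :=
    fun a ha => sep_pset hZ hB (hAZ ha) (h a ha)
  choose! D h1 h2 h3 h4 h5 using key
  obtain ⟨t, ht⟩ := hA.isCompact.elim_nhds_subcover' (fun b hb => (Z \ D b)ᶜ) (fun b hb =>
    (h2 b hb).isOpen_compl.mem_nhds (fun hh => hh.2 (h4 b hb)))
  refine ⟨⋃ b ∈ t, D b, ?_, ?_, ?_, ?_, ?_⟩
  · exact t.finite_toSet.isClosed_biUnion fun b hb => h1 b b.2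
  · have : Z \ (⋃ b ∈ t, D b) = Z ∩ ⋂ b ∈ t, (Z \ D b) := by
      ext x; simp only [Set.mem_sdiff, mem_inter_iff, mem_iInter, mem_iUnion, not_exists]
      constructor
      · rintro ⟨hx, hn⟩
        exact ⟨hx, fun b hb => ⟨hx, fun hh => hn b hb hh⟩⟩
      · rintro ⟨hx, hn⟩
        exact ⟨hx, fun b hb hh => (hn b hb).2 hh⟩
    rw [this]
    exact hZ.inter (isClosed_biInter fun b hb => h2 b b.2)
  · exact iUnion₂_subset fun b hb => h3 b b.2
  · intro x hx
    have := ht hx
    simp only [mem_iUnion] at this ⊢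
    obtain ⟨b, hb, hxb⟩ := this
    exact ⟨b, hb, by_contra fun hn => hxb ⟨hAZ hx, hn⟩⟩
  · simp only [Set.disjoint_iUnion_left]
    exact fun b hb => h5 b b.2

/-- A preconnected set covered by two disjoint closed sets. -/
theorem pc_cases {A P Q : Set X} (hA : IsPreconnected A) (hP : IsClosed P)
    (hQ : IsClosed Q) (hAPQ : A ⊆ P ∪ Q) (hd : Disjoint P Q) : A ⊆ P ∨ A ⊆ Q :=
  (isPreconnected_iff_subset_of_disjoint_closed.1 hA) P Q hP hQ hAPQ (by
    rw [hd.inter_eq, Set.inter_empty])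

/-- Criterion for connectedness of closed sets. -/
theorem pc_of {A : Set X} (hA : IsClosed A)
    (h : ∀ P Q : Set X, IsClosed P → IsClosed Q → P ∪ Q = A → Disjoint P Q → P.Nonempty →
      Q.Nonempty → False) : IsPreconnected A := by
  rw [isPreconnected_iff_subset_of_fully_disjoint_closed hA]
  intro P Q hP hQ hPQ hd
  by_contra hcon
  push Not at hcon
  obtain ⟨h1, h2⟩ := hcon
  obtain ⟨x, hx, hxP⟩ := Set.not_subset.1 h1
  obtain ⟨y, hy, hyQ⟩ := Set.not_subset.1 h2
  refine h (A ∩ P) (A ∩ Q) (hA.inter hP) (hA.inter hQ) ?_ ?_ ?_ ?_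
  · rw [← inter_union_distrib_left]; exact inter_eq_left.2 hPQ
  · exact hd.mono inter_subset_right inter_subset_right
  · exact ⟨y, hy, (hPQ hy).resolve_right hyQ⟩
  · exact ⟨x, hx, (hPQ hx).resolve_left hxP⟩

/-- A continuum with a proper subcontinuum with nonempty interior is decomposable. -/
theorem decomposable_of_interior {K L O : Set X} (hK : IsClosed K) (hKc : IsPreconnected K)
    (hL : IsClosed L) (hLc : IsConnected L) (hLK : L ⊆ K) (hne : L ≠ K) (hO : IsOpen O)
    (hOK : (O ∩ K).Nonempty) (hOL : O ∩ K ⊆ L) : Decomposable K := by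
  have hLp : ∃ z ∈ K, z ∉ L := by
    by_contra hcon
    push Not at hcon
    exact hne (Subset.antisymm hLK hcon)
  obtain ⟨z, hzK, hzL⟩ := hLp
  set W := closure (K \ L) with hW
  have hWcl : IsClosed W := isClosed_closure
  have hWK : W ⊆ K := closure_minimal sdiff_subset hK
  have hOW : Disjoint O W := by
    rw [hW]
    apply Disjoint.closure_right _ hO
    rw [Set.disjoint_left]
    rintro x hx ⟨h1, h2⟩
    exact h2 (hOL ⟨hx, h1⟩)
  have hLW : L ∪ W = K := by
    apply Subset.antisymm (union_subset hLK hWK)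
    intro x hx
    by_cases h : x ∈ L
    · exact Or.inl h
    · exact Or.inr (subset_closure ⟨hx, h⟩)
  obtain ⟨o, hoO, hoK⟩ := hOK
  by_cases hWc : IsPreconnected W
  · refine ⟨L, W, ⟨hL.isCompact, hLc⟩, ⟨hWcl.isCompact, ⟨z, subset_closure ⟨hzK, hzL⟩⟩, hWc⟩,
      hLK, hWK, hne, ?_, hLW⟩
    intro h
    exact Set.disjoint_left.1 hOW hoO (by rw [h]; exact hoK)
  · have hex : ∃ P Q : Set X, IsClosed P ∧ IsClosed Q ∧ P ∪ Q = W ∧ Disjoint P Q ∧ P.Nonempty ∧
        Q.Nonempty := by
      by_contra hcon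
      push Not at hcon
      apply hWc
      apply pc_of hWcl
      intro P Q h1 h2 h3 h4 h5 h6
      exact h6.ne_empty (hcon P Q h1 h2 h3 h4 h5)
    obtain ⟨P, Q, hP, hQ, hPQ, hd, hPn, hQn⟩ := hex
    -- each part meets `K \ L`
    have meet : ∀ P Q : Set X, IsClosed P → IsClosed Q → P ∪ Q = W → Disjoint P Q → P.Nonempty →
        ∃ x ∈ P, x ∈ K \ L := by
      intro P Q hP hQ hPQ hd hPn
      by_contra hcon
      push Not at hcon
      have h1 : K \ L ⊆ Q := by
        intro x hx
        have : x ∈ P ∪ Q := by rw [hPQ]; exact subset_closure hx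
        rcases this with h | h
        · exact absurd hx (hcon x h)
        · exact h
      have h2 : W ⊆ Q := closure_minimal h1 hQ
      obtain ⟨x, hx⟩ := hPn
      exact Set.disjoint_left.1 hd hx (h2 (by rw [← hPQ]; exact Or.inl hx))
    have conn : ∀ P Q : Set X, IsClosed P → IsClosed Q → P ∪ Q = W → Disjoint P Q →
        IsConnected (L ∪ P) := by
      intro P Q hP hQ hPQ hd
      refine ⟨hLc.nonempty.mono subset_union_left, ?_⟩
      have key : ∀ R S : Set X, IsClosed R → IsClosed S → R ∪ S = L ∪ P → Disjoint R S →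
          L ⊆ R → S.Nonempty → False := by
        intro R S hR hS hRS hRSd hLR hSn
        have hSP : S ⊆ P := by
          intro x hx
          have : x ∈ L ∪ P := by rw [← hRS]; exact Or.inr hx
          rcases this with h | h
          · exact absurd hx (Set.disjoint_left.1 hRSd (hLR h))
          · exact h
        have hcov : K ⊆ (R ∪ Q) ∪ S := by
          intro x hx
          rw [← hLW, ← hPQ] at hx
          rcases hx with h | h | h
          · exact Or.inl (Or.inl (hLR h))
          · have : x ∈ R ∪ S := by rw [hRS]; exact Or.inr h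
            rcases this with h | h
            · exact Or.inl (Or.inl h)
            · exact Or.inr h
          · exact Or.inl (Or.inr h)
        have hdis : Disjoint (R ∪ Q) S :=
          Set.disjoint_union_left.2 ⟨hRSd, hd.symm.mono_right hSP⟩
        rcases pc_cases hKc (hR.union hQ) hS hcov hdis with h | h
        · obtain ⟨x, hx⟩ := hSn
          have hxK : x ∈ K := by
            rw [← hLW, ← hPQ]; exact Or.inr (Or.inl (hSP hx))
          exact Set.disjoint_left.1 hdis (h hxK) hx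
        · obtain ⟨l, hl⟩ := hLc.nonempty
          exact Set.disjoint_left.1 hdis (Or.inl (hLR hl)) (h (hLK hl))
      apply pc_of (hL.union hP)
      intro R S hR hS hRS hRSd hRn hSn
      have hcov : L ⊆ R ∪ S := by rw [hRS]; exact subset_union_left
      rcases pc_cases hLc.isPreconnected hR hS hcov hRSd with h | h
      · exact key R S hR hS hRS hRSd h hSn
      · exact key S R hS hR (by rw [union_comm]; exact hRS) hRSd.symm h hRn
    have hQP : Q ∪ P = W := by rw [union_comm]; exact hPQ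
    refine ⟨L ∪ P, L ∪ Q, ⟨(hL.union hP).isCompact, conn P Q hP hQ hPQ hd⟩,
      ⟨(hL.union hQ).isCompact, conn Q P hQ hP hQP hd.symm⟩, ?_, ?_, ?_, ?_, ?_⟩
    · exact union_subset hLK ((subset_union_left.trans hPQ.subset).trans hWK)
    · exact union_subset hLK ((subset_union_right.trans hPQ.subset).trans hWK)
    · intro h
      obtain ⟨x, hx, hx2⟩ := meet Q P hQ hP hQP hd.symm hQn
      have : x ∈ L ∪ P := by rw [h]; exact hx2.1
      rcases this with h | h
      · exact hx2.2 h
      · exact Set.disjoint_left.1 hd h hx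
    · intro h
      obtain ⟨x, hx, hx2⟩ := meet P Q hP hQ hPQ hd hPn
      have : x ∈ L ∪ Q := by rw [h]; exact hx2.1
      rcases this with h | h
      · exact hx2.2 h
      · exact Set.disjoint_left.1 hd hx h
    · rw [← hLW, ← hPQ]
      ext x; simp only [mem_union]; tauto

end basic

section tree
variable {X Y : Type} [TopologicalSpace X] [CompactSpace X] [T2Space X] [TopologicalSpace Y]
  [CompactSpace Y] [T2Space Y]

/-- the tree relation coded by `u` -/
def TRel (u : X → ℝ) (x y : X) : Prop := u x = u y ∧ y ∈ connectedComponentIn {z | u x ≤ u z} x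

lemma TRel.refl (u : X → ℝ) (x : X) : TRel u x x :=
  ⟨rfl, mem_connectedComponentIn (le_refl (u x))⟩

lemma TRel.symm {u : X → ℝ} {x y : X} (h : TRel u x y) : TRel u y x := by
  refine ⟨h.1.symm, ?_⟩
  have h1 : connectedComponentIn {z | u x ≤ u z} x = connectedComponentIn {z | u x ≤ u z} y :=
    connectedComponentIn_eq h.2
  rw [← h.1, ← h1]
  exact mem_connectedComponentIn (le_refl (u x))

lemma TRel.trans {u : X → ℝ} {x y z : X} (h : TRel u x y) (h' : TRel u y z) : TRel u x z := by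
  refine ⟨h.1.trans h'.1, ?_⟩
  have h1 : connectedComponentIn {z | u x ≤ u z} x = connectedComponentIn {z | u x ≤ u z} y :=
    connectedComponentIn_eq h.2
  rw [h1, h.1]
  exact h'.2

variable {f : X → Y} {u : X → ℝ} {v : Y → ℝ}

/-- images of complementary clopen pieces of `{t ≤ u}` are disjoint -/
lemma disjoint_pieces (hrel : ∀ x y, f x = f y → TRel u x y) {t : ℝ}
    {D : Set X} (hD : IsClosed D) (hD2 : IsClosed ({z | t ≤ u z} \ D)) (hDZ : D ⊆ {z | t ≤ u z}) :
    Disjoint (f '' D) (f '' ({z | t ≤ u z} \ D)) := by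
  rw [Set.disjoint_left]
  rintro _ ⟨d, hd, rfl⟩ ⟨e, he, hde⟩
  obtain ⟨h1, h2⟩ := hrel d e hde.symm
  have hsub : connectedComponentIn {z | u d ≤ u z} d ⊆ {z | t ≤ u z} := by
    intro z hz
    have h3 : z ∈ {z | u d ≤ u z} := connectedComponentIn_subset {z | u d ≤ u z} d hz
    have h4 : u d ≤ u z := h3
    exact le_trans (hDZ hd) h4
  have hcov : connectedComponentIn {z | u d ≤ u z} d ⊆ D ∪ ({z | t ≤ u z} \ D) := by
    rw [union_sdiff_cancel hDZ]; exact hsub
  rcases pc_cases isPreconnected_connectedComponentIn hD hD2 hcov disjoint_sdiff_right with h | h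
  · exact he.2 (h h2)
  · exact (h (mem_connectedComponentIn (le_refl (u d)))).2 hd

/-- Hereditary decomposability of the tree quotient. -/
theorem tree_hd (hf : Continuous f) (hfs : Function.Surjective f) (hu : Continuous u)
    (hv : Continuous v) (hvf : ∀ x, v (f x) = u x) (hrel : ∀ x y, f x = f y ↔ TRel u x y)
    {K : Set Y} (hK : IsClosed K) (hKc : IsPreconnected K) (hKn : K.Nontrivial) :
    Decomposable K := by
  have hclosed : IsClosedMap f := hf.isClosedMap
  have hZcl : ∀ t : ℝ, IsClosed {z | t ≤ u z} := fun t => isClosed_le continuous_const hu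
  -- minimum and maximum of `v` on `K`
  obtain ⟨p, hpK, hp⟩ := hK.isCompact.exists_isMinOn hKn.nonempty hv.continuousOn
  obtain ⟨q, hqK, hq⟩ := hK.isCompact.exists_isMaxOn hKn.nonempty hv.continuousOn
  have hp' : ∀ y ∈ K, v p ≤ v y := fun y hy => hp hy
  have hq' : ∀ y ∈ K, v y ≤ v q := fun y hy => hq hy
  have hlt : v p < v q := by
    by_contra hcon
    have hle : v q ≤ v p := not_lt.1 hcon
    have hconst : ∀ y ∈ K, v y = v p := fun y hy =>
      le_antisymm ((hq' y hy).trans hle) (hp' y hy)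
    obtain ⟨a, ha, b, hb, hab⟩ := hKn
    obtain ⟨x, rfl⟩ := hfs a
    obtain ⟨y, rfl⟩ := hfs b
    have hux : u x = v p := by rw [← hvf]; exact hconst _ ha
    have huy : u y = v p := by rw [← hvf]; exact hconst _ hb
    have hnr : ¬ TRel u x y := fun h => hab ((hrel x y).2 h)
    have hnc : y ∉ connectedComponentIn {z | u x ≤ u z} x := fun h =>
      hnr ⟨hux.trans huy.symm, h⟩
    obtain ⟨D, hD, hD2, hDZ, hxD, hyD⟩ := sep_point (hZcl (u x)) (a := x) (b := y)
      (le_refl (u x)) (by rw [mem_ofPred_eq, hux, huy]) hnc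
    have hdis := disjoint_pieces (fun a b h => (hrel a b).1 h) hD hD2 hDZ
    have hcov : K ⊆ f '' D ∪ f '' ({z | u x ≤ u z} \ D) := by
      intro w hw
      obtain ⟨z, rfl⟩ := hfs w
      have hz : u z = u x := by rw [hux, ← hvf]; exact hconst _ hw
      by_cases hzD : z ∈ D
      · exact Or.inl ⟨z, hzD, rfl⟩
      · exact Or.inr ⟨z, ⟨by rw [mem_ofPred_eq, hz], hzD⟩, rfl⟩
    rcases pc_cases hKc (hclosed _ hD) (hclosed _ hD2) hcov hdis with h | h
    · exact Set.disjoint_left.1 hdis (h hb) ⟨y, ⟨by rw [mem_ofPred_eq, hux, huy], hyD⟩, rfl⟩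
    · exact Set.disjoint_left.1 hdis ⟨x, hxD, rfl⟩ (h ha)
  obtain ⟨s, hs1, hs2⟩ := exists_between hlt
  set L : Set Y := K ∩ {y | v y ≤ s} with hL
  have hLcl : IsClosed L := hK.inter (isClosed_le hv continuous_const)
  have hLc : IsPreconnected L := by
    apply pc_of hLcl
    intro A B hA hB hAB hABd hAn hBn
    set P : Set X := f ⁻¹' A ∩ {x | u x = s} with hP
    set P' : Set X := f ⁻¹' B ∩ {x | u x = s} with hP'
    have hPcl : IsClosed P := (hA.preimage hf).inter (isClosed_eq hu continuous_const)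
    have hPcl' : IsClosed P' := (hB.preimage hf).inter (isClosed_eq hu continuous_const)
    have hPZ : P ⊆ {z | s ≤ u z} := fun x hx => hx.2.symm.le
    have hcc : ∀ a ∈ P, Disjoint (connectedComponentIn {z | s ≤ u z} a) P' := by
      intro a ha
      rw [Set.disjoint_left]
      intro b hb hb'
      have h1 : TRel u a b := by
        refine ⟨ha.2.trans hb'.2.symm, ?_⟩
        have : u a = s := ha.2
        rw [this]; exact hb
      have h2 : f a = f b := (hrel a b).2 h1
      have h3 : f a ∈ A := ha.1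
      have h4 : f b ∈ B := hb'.1
      exact Set.disjoint_left.1 hABd h3 (by rw [h2]; exact h4)
    obtain ⟨D, hD, hD2, hDZ, hPD, hDP'⟩ := cutwire (hZcl s) hPcl hPcl' hPZ hcc
    have hdis := disjoint_pieces (fun a b h => (hrel a b).1 h) hD hD2 hDZ
    have hALs : ∀ y ∈ A, v y ≤ s := fun y hy => by
      have : y ∈ L := by rw [← hAB]; exact Or.inl hy
      exact this.2
    have hBLs : ∀ y ∈ B, v y ≤ s := fun y hy => by
      have : y ∈ L := by rw [← hAB]; exact Or.inr hy
      exact this.2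
    have hAL : A ⊆ K := fun y hy => by
      have : y ∈ L := by rw [← hAB]; exact Or.inl hy
      exact this.1
    have hBL : B ⊆ K := fun y hy => by
      have : y ∈ L := by rw [← hAB]; exact Or.inr hy
      exact this.1
    have hcov : K ⊆ (A ∪ f '' D) ∪ (B ∪ f '' ({z | s ≤ u z} \ D)) := by
      intro w hw
      rcases le_or_gt (v w) s with h | h
      · have : w ∈ A ∪ B := by rw [hAB]; exact ⟨hw, h⟩
        rcases this with h | h
        · exact Or.inl (Or.inl h)
        · exact Or.inr (Or.inl h)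
      · obtain ⟨z, rfl⟩ := hfs w
        rw [hvf] at h
        by_cases hzD : z ∈ D
        · exact Or.inl (Or.inr ⟨z, hzD, rfl⟩)
        · exact Or.inr (Or.inr ⟨z, ⟨h.le, hzD⟩, rfl⟩)
    have hdd : Disjoint (A ∪ f '' D) (B ∪ f '' ({z | s ≤ u z} \ D)) := by
      rw [Set.disjoint_union_left, Set.disjoint_union_right, Set.disjoint_union_right]
      refine ⟨⟨hABd, ?_⟩, ?_, hdis⟩
      · rw [Set.disjoint_left]
        rintro _ hy ⟨z, hz, rfl⟩
        have h1 : u z ≤ s := by rw [← hvf]; exact hALs _ hy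
        have h2 : u z = s := le_antisymm h1 hz.1
        exact hz.2 (hPD ⟨hy, h2⟩)
      · rw [Set.disjoint_left]
        rintro _ ⟨z, hz, rfl⟩ hy
        have h1 : u z ≤ s := by rw [← hvf]; exact hBLs _ hy
        have h2 : u z = s := le_antisymm h1 (hDZ hz)
        exact Set.disjoint_left.1 hDP' hz ⟨hy, h2⟩
    rcases pc_cases hKc (hA.union (hclosed _ hD)) (hB.union (hclosed _ hD2)) hcov hdd with h | h
    · obtain ⟨y, hy⟩ := hBn
      exact Set.disjoint_left.1 hdd (h (hBL hy)) (Or.inl hy)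
    · obtain ⟨y, hy⟩ := hAn
      exact Set.disjoint_left.1 hdd (Or.inl hy) (h (hAL hy))
  refine decomposable_of_interior (L := L) (O := {y | v y < s}) hK hKc hLcl
    ⟨⟨p, hpK, hs1.le⟩, hLc⟩ inter_subset_left ?_ (isOpen_lt hv continuous_const)
    ⟨p, hs1, hpK⟩ (fun y hy => ⟨hy.2, show v y ≤ s from le_of_lt (show v y < s from hy.1)⟩)
  intro h
  have : q ∈ L := by rw [h]; exact hqK
  exact absurd this.2 (not_le.2 hs2)

end tree

end Pool.Agent.Helper162.Arc
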